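import Pool.Agent.J4.H72.SX.Pol

/-!
The two equivalences.
-/

set_option autoImplicit false

namespace Pool.Agent.J4.H72.SX

open Pool.Agent.Y644.QS Pool.Agent.H687R2.LLL Pool.Agent.NPC Finset

/-- the output `x 0, …, x N` and `d` -/
def outp {n : ℕ} (N : ℕ) (x : ℕ → Fin n → ℚ) (d : Option (Fin n → ℚ)) : Outp :=
  ((List.range (N + 1)).map (fun k => List.ofFn (x k)), d.map List.ofFn)

theorem alg_spec {g : List Bool → List Bool}
    (h : ∀ (m n : ℕ) (A : Fin m → Fin (n + 2) → ℚ) (b : Fin m → ℚ) (c v : Fin (n + 2) → ℚ),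
      Elementary A b c v → re v ∈ Set.extremePoints ℝ (Y644.QS.polyhedron A b) →
      ∃ (N : ℕ) (x : ℕ → Fin (n + 2) → ℚ) (d : Option (Fin (n + 2) → ℚ)),
        g (bits (Y644.QS.inp A b c v)) = bits (outp N x d) ∧
          Y644.QS.IsSimplexPath (Y644.QS.polyhedron A b) c v N x d)
    (m n : ℕ) (A : Fin m → Fin n → ℚ) (b : Fin m → ℚ) (c v : Fin n → ℚ)
    (hv : re v ∈ Set.extremePoints ℝ (Y644.QS.polyhedron A b)) :
    ∃ (N : ℕ) (x : ℕ → Fin n → ℚ) (d : Option (Fin n → ℚ)),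
      bits (NPC.H72X.alg g (bits (Y644.QS.inp A b c v))) = bits (outp N x d) ∧
        Y644.QS.IsSimplexPath (Y644.QS.polyhedron A b) c v N x d := by
  obtain ⟨N, x, d, h1, h2⟩ := h _ _ _ _ _ _ (elem_TrX A b c v) (ext_vE hv)
  refine ⟨N, fun k => dnE A b c v (x k), d.map (dnE A b c v), ?_, path_E hv h2⟩
  rw [inp_TrX] at h1
  unfold NPC.H72X.alg
  rw [unbits_bits]
  show bits ((unbits Outp (g (bits (TrX (Y644.QS.inp A b c v))))).elim ([], none)
    fun o => dO (Y644.QS.inp A b c v) o) = _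
  rw [h1, unbits_bits]
  show bits (dO (Y644.QS.inp A b c v) (outp N x d)) = _
  congr 1
  unfold dO outp
  refine Prod.ext ?_ ?_
  · simp only [List.map_map]
    refine List.map_congr_left fun k _ => ?_
    exact dl_ofFn A b c v (x k)
  · cases d with
    | none => rfl
    | some e => exact congrArg some (dl_ofFn A b c v e)

theorem short_down {p : Polynomial ℕ}
    (h : ∀ (m n : ℕ) (A : Fin m → Fin (n + 2) → ℚ) (b : Fin m → ℚ) (c v : Fin (n + 2) → ℚ),
      Elementary A b c v → re v ∈ Set.extremePoints ℝ (Y644.QS.polyhedron A b) →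
      ∃ (N : ℕ) (x : ℕ → Fin (n + 2) → ℚ) (d : Option (Fin (n + 2) → ℚ)),
        N ≤ p.eval (m + n) ∧ Y644.QS.IsSimplexPath (Y644.QS.polyhedron A b) c v N x d) :
    ∃ q : Polynomial ℕ, ∀ (m n : ℕ) (A : Fin m → Fin n → ℚ) (b : Fin m → ℚ) (c v : Fin n → ℚ),
      re v ∈ Set.extremePoints ℝ (Y644.QS.polyhedron A b) →
      ∃ (N : ℕ) (x : ℕ → Fin n → ℚ) (d : Option (Fin n → ℚ)),
        N ≤ q.eval (bits (List.ofFn fun i => List.ofFn (A i), List.ofFn b, List.ofFn c)).length ∧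
          Y644.QS.IsSimplexPath (Y644.QS.polyhedron A b) c v N x d := by
  obtain ⟨q1, hq1⟩ := NPC.H72X.poly_TrX.sz_le
  obtain ⟨q2, hq2⟩ := NPC.Y644.exists_vertex_bound
  refine ⟨p.comp (q1.comp q2), fun m n A b c v hv => ?_⟩
  obtain ⟨N, x, d, h1, h2⟩ := h _ _ _ _ _ _ (elem_TrX A b c v) (ext_vE hv)
  refine ⟨N, fun k => dnE A b c v (x k), d.map (dnE A b c v), ?_, path_E hv h2⟩
  have h3 := Y644.QS.le_sz_inp (A := mA (NX (Y644.QS.inp A b c v) + 2) (tX (Y644.QS.inp A b c v)))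
    (b := mb (NX (Y644.QS.inp A b c v) + 2) (tX (Y644.QS.inp A b c v))) (c := Pi.single 1 1)
    (v := vE A b c v)
  rw [inp_TrX] at h3
  have h4 := hq1 (Y644.QS.inp A b c v)
  have h5 := hq2 m n A b c v hv
  rw [bits_length] at h5
  rw [Polynomial.eval_comp, Polynomial.eval_comp]
  refine h1.trans (eval_mono p ?_)
  refine le_trans ?_ (eval_mono q1 h5)
  omega

/-- the size of an elementary program is bounded by the number of variables and constraints -/
theorem elem_size : ∃ q : Polynomial ℕ, ∀ (m n : ℕ) (A : Fin m → Fin (n + 2) → ℚ)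
    (b : Fin m → ℚ) (c v : Fin (n + 2) → ℚ), Elementary A b c v →
    (bits (List.ofFn fun i => List.ofFn (A i), List.ofFn b, List.ofFn c)).length ≤
      q.eval (m + n) := by
  set K : ℕ := sz (-2 : ℚ) + sz (-1 : ℚ) + sz (0 : ℚ) + sz (1 : ℚ) + sz (2 : ℚ) with hK
  have hq : ∀ a : ℚ, a = -2 ∨ a = -1 ∨ a = 0 ∨ a = 1 ∨ a = 2 → sz a ≤ K := by
    rintro a (rfl | rfl | rfl | rfl | rfl) <;> omega
  refine ⟨(Polynomial.X * ((Polynomial.X + 2) * (Polynomial.C K + 1) + 2) + 1) +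
    (Polynomial.X * (Polynomial.C K + 1) + 1) + ((Polynomial.X + 2) * (Polynomial.C K + 1) + 1) + 2,
    fun m n A b c v h => ?_⟩
  have hA : ∀ r s, sz (A r s) ≤ K := by
    intro r s
    apply hq
    rcases h.row r with ⟨-, i, j, k, h1 | h1⟩ | ⟨-, h1⟩ | ⟨-, h1⟩
    · rw [h1]
      simp only [eqn, Pi.sub_apply, Pi.add_apply, Pi.single_apply]
      split_ifs <;> norm_num
    · rw [h1]
      simp only [eqn, Pi.neg_apply, Pi.sub_apply, Pi.add_apply, Pi.single_apply]
      split_ifs <;> norm_num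
    · rw [h1]
      simp only [Pi.single_apply]
      split_ifs <;> norm_num
    · rw [h1]
      simp only [Pi.neg_apply, Pi.single_apply]
      split_ifs <;> norm_num
  have hb : ∀ r, sz (b r) ≤ K := by
    intro r
    apply hq
    rcases h.row r with ⟨h1, -⟩ | ⟨h1, -⟩ | ⟨h1, -⟩ <;> rw [h1] <;> norm_num
  have hc : ∀ s, sz (c s) ≤ K := by
    intro s
    apply hq
    rw [h.obj]
    simp only [Pi.single_apply]
    split_ifs <;> norm_num
  have e1 : ∀ r, sz (List.ofFn (A r)) ≤ (n + 2) * (K + 1) + 1 := by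
    intro r
    refine (sz_le_length_mul _ K ?_).trans (by rw [List.length_ofFn])
    intro a ha
    obtain ⟨s, rfl⟩ := (List.mem_ofFn' _ _).1 ha
    exact hA r s
  have e2 : sz (List.ofFn fun i => List.ofFn (A i)) ≤ m * (((n + 2) * (K + 1) + 1) + 1) + 1 := by
    refine (sz_le_length_mul _ ((n + 2) * (K + 1) + 1) ?_).trans (by rw [List.length_ofFn])
    intro a ha
    obtain ⟨s, rfl⟩ := (List.mem_ofFn' _ _).1 ha
    exact e1 s
  have e3 : sz (List.ofFn b) ≤ m * (K + 1) + 1 := by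
    refine (sz_le_length_mul _ K ?_).trans (by rw [List.length_ofFn])
    intro a ha
    obtain ⟨s, rfl⟩ := (List.mem_ofFn' _ _).1 ha
    exact hb s
  have e4 : sz (List.ofFn c) ≤ (n + 2) * (K + 1) + 1 := by
    refine (sz_le_length_mul _ K ?_).trans (by rw [List.length_ofFn])
    intro a ha
    obtain ⟨s, rfl⟩ := (List.mem_ofFn' _ _).1 ha
    exact hc s
  rw [bits_length, sz_pair, sz_pair]
  simp only [Polynomial.eval_add, Polynomial.eval_mul, Polynomial.eval_X, Polynomial.eval_C,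
    Polynomial.eval_one, Polynomial.eval_ofNat]
  have e5 : m * (((n + 2) * (K + 1) + 1) + 1) ≤ (m + n) * ((m + n + 2) * (K + 1) + 2) := by
    refine Nat.mul_le_mul (by omega) ?_
    have : (n + 2) * (K + 1) ≤ (m + n + 2) * (K + 1) := Nat.mul_le_mul_right _ (by omega)
    omega
  have e6 : m * (K + 1) ≤ (m + n) * (K + 1) := Nat.mul_le_mul_right _ (by omega)
  have e7 : (n + 2) * (K + 1) ≤ (m + n + 2) * (K + 1) := Nat.mul_le_mul_right _ (by omega)
  omega

end Pool.Agent.J4.H72.SX
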