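import Mathlib

/-!
Faces of convex sets: cutting by a half space through the start vertex, and affine images.
-/

set_option autoImplicit false

namespace Pool.Agent.J4.H72.SX

open Set

variable {n N : ℕ}

/-- a face of `{z ∈ P | α ≤ f z}` which leaves the boundary is a face of `P` -/
theorem exposed_of_half {P : Set (Fin n → ℝ)} (hP : Convex ℝ P) (f : (Fin n → ℝ) →ₗ[ℝ] ℝ) (α : ℝ)
    {S : Set (Fin n → ℝ)} {x y : Fin n → ℝ} (hS : IsExposed ℝ {z | z ∈ P ∧ α ≤ f z} S)
    (hx : x ∈ S) (hy : y ∈ S) (hext : x ∈ P.extremePoints ℝ) (hlt : f x < f y)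
    (huni : ∀ z ∈ S, f z ≤ f x → z = x) : IsExposed ℝ P S := by
  intro hne
  obtain ⟨l, hl⟩ := hS hne
  refine ⟨l, ?_⟩
  have hx' : x ∈ {z | z ∈ P ∧ α ≤ f z} ∧ ∀ w ∈ {z | z ∈ P ∧ α ≤ f z}, l w ≤ l x := by
    rw [hl] at hx; exact hx
  have hy' : y ∈ {z | z ∈ P ∧ α ≤ f z} ∧ ∀ w ∈ {z | z ∈ P ∧ α ≤ f z}, l w ≤ l y := by
    rw [hl] at hy; exact hy
  have hxy : l x = l y := le_antisymm (hy'.2 x hx'.1) (hx'.2 y hy'.1)
  -- the point of the segment from `y` to `q` on the boundary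
  have key : ∀ q ∈ P, f q < α → ∃ ε : ℝ, 0 < ε ∧ ε < 1 ∧
      (y + ε • (q - y)) ∈ {z | z ∈ P ∧ α ≤ f z} ∧ f (y + ε • (q - y)) = α := by
    intro q hq hqα
    have h1 : α < f y := lt_of_le_of_lt hx'.1.2 hlt
    have h2 : 0 < f y - f q := by linarith
    refine ⟨(f y - α) / (f y - f q), div_pos (by linarith) h2, ?_, ?_⟩
    · rw [div_lt_one h2]; linarith
    · have h3 : f (y + ((f y - α) / (f y - f q)) • (q - y)) = α := by
        rw [map_add, map_smul, map_sub, smul_eq_mul]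
        field_simp
        ring
      refine ⟨⟨?_, h3.ge⟩, h3⟩
      exact hP.add_smul_sub_mem hy'.1.1 hq ⟨(div_pos (by linarith) h2).le,
        ((div_lt_one h2).2 (by linarith)).le⟩
  have hmax : ∀ q ∈ P, l q ≤ l y := by
    intro q hq
    rcases le_or_gt α (f q) with h | h
    · exact hy'.2 q ⟨hq, h⟩
    · obtain ⟨ε, h0, h1, h2, -⟩ := key q hq h
      have h3 := hy'.2 _ h2
      rw [map_add, map_smul, map_sub, smul_eq_mul] at h3
      nlinarith
  ext p
  constructor
  · intro hp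
    have hp' := hp
    rw [hl] at hp'
    refine ⟨hp'.1.1, fun q hq => ?_⟩
    have h1 := hmax q hq
    have h2 := hp'.2 y hy'.1
    linarith
  · rintro ⟨hp, hpm⟩
    have hpy : l p = l y := le_antisymm (hmax p hp) (hpm y hy'.1.1)
    rcases le_or_gt α (f p) with h | h
    · rw [hl]
      exact ⟨⟨hp, h⟩, fun w hw => by rw [hpy]; exact hy'.2 w hw⟩
    · exfalso
      obtain ⟨ε, h0, h1, h2, h3⟩ := key p hp h
      have h4 : l (y + ε • (p - y)) = l y := by
        rw [map_add, map_smul, map_sub, hpy, sub_self, smul_zero, add_zero]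
      have h5 : y + ε • (p - y) ∈ S := by
        rw [hl]
        exact ⟨h2, fun w hw => by rw [h4]; exact hy'.2 w hw⟩
      have h6 := huni _ h5 (by rw [h3]; exact hx'.1.2)
      have h7 : x ∈ openSegment ℝ y p := by
        refine ⟨1 - ε, ε, by linarith, h0, by ring, ?_⟩
        rw [← h6]
        module
      have h8 := (mem_extremePoints.1 hext).2 y hy'.1.1 p hp h7
      rw [h8.1] at hlt
      exact lt_irrefl _ hlt

/-- a vertex of `{z ∈ P | α ≤ f z}` off the boundary is a vertex of `P` -/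
theorem extreme_of_half {P : Set (Fin n → ℝ)} (hP : Convex ℝ P) (f : (Fin n → ℝ) →ₗ[ℝ] ℝ) (α : ℝ)
    {x : Fin n → ℝ} (hx : x ∈ extremePoints ℝ {z | z ∈ P ∧ α ≤ f z}) (hlt : α < f x) :
    x ∈ P.extremePoints ℝ := by
  rw [mem_extremePoints_iff_left] at hx ⊢
  refine ⟨hx.1.1, fun p hp q hq hpq => ?_⟩
  obtain ⟨a, b, ha, hb, hab, hx0⟩ := hpq
  -- points near `x`
  obtain ⟨ε, h0, h1, h2, h3⟩ : ∃ ε : ℝ, 0 < ε ∧ ε ≤ 1 ∧ α ≤ f (x + ε • (p - x)) ∧
      α ≤ f (x + ε • (q - x)) := by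
    have hpos : 0 < f x - α := by linarith
    refine ⟨(f x - α) / (f x - α + |f p - f x| + |f q - f x|), by positivity, ?_, ?_, ?_⟩
    · rw [div_le_one (by positivity)]
      have := abs_nonneg (f p - f x)
      have := abs_nonneg (f q - f x)
      linarith
    · rw [map_add, map_smul, map_sub, smul_eq_mul]
      have h1 : -((f x - α) / (f x - α + |f p - f x| + |f q - f x|) * |f p - f x|) ≤
          (f x - α) / (f x - α + |f p - f x| + |f q - f x|) * (f p - f x) := by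
        rw [← mul_neg]
        exact mul_le_mul_of_nonneg_left (neg_abs_le _) (by positivity)
      have h2 : (f x - α) / (f x - α + |f p - f x| + |f q - f x|) * |f p - f x| ≤ f x - α := by
        rw [div_mul_eq_mul_div, div_le_iff₀ (by positivity)]
        refine mul_le_mul_of_nonneg_left ?_ hpos.le
        have := abs_nonneg (f q - f x)
        linarith
      linarith
    · rw [map_add, map_smul, map_sub, smul_eq_mul]
      have h1 : -((f x - α) / (f x - α + |f p - f x| + |f q - f x|) * |f q - f x|) ≤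
          (f x - α) / (f x - α + |f p - f x| + |f q - f x|) * (f q - f x) := by
        rw [← mul_neg]
        exact mul_le_mul_of_nonneg_left (neg_abs_le _) (by positivity)
      have h2 : (f x - α) / (f x - α + |f p - f x| + |f q - f x|) * |f q - f x| ≤ f x - α := by
        rw [div_mul_eq_mul_div, div_le_iff₀ (by positivity)]
        refine mul_le_mul_of_nonneg_left ?_ hpos.le
        have := abs_nonneg (f p - f x)
        linarith
      linarith
  have hxP := hx.1.1
  have h4 := hx.2 (x + ε • (p - x)) ⟨hP.add_smul_sub_mem hxP hp ⟨h0.le, h1⟩, h2⟩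
    (x + ε • (q - x)) ⟨hP.add_smul_sub_mem hxP hq ⟨h0.le, h1⟩, h3⟩ (by
      refine ⟨a, b, ha, hb, hab, ?_⟩
      have hb' : b = 1 - a := by linarith
      subst hb'
      rw [← hx0]
      module)
  have h5 : ε • (p - x) = 0 := by
    have : x + ε • (p - x) = x + 0 := by rw [add_zero]; exact h4
    exact add_left_cancel this
  rcases smul_eq_zero.1 h5 with h | h
  · exact absurd h h0.ne'
  · exact sub_eq_zero.1 h

/-- data of an affine isomorphism between two sets -/
structure Iso (P : Set (Fin n → ℝ)) (Q : Set (Fin N → ℝ)) where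
  /-- the linear part -/
  up : (Fin n → ℝ) →ₗ[ℝ] (Fin N → ℝ)
  /-- the constant part -/
  cst : Fin N → ℝ
  /-- the inverse -/
  down : (Fin N → ℝ) →ₗ[ℝ] (Fin n → ℝ)
  down_up : ∀ x, down (up x) = x
  down_cst : down cst = 0
  mem_iff : ∀ y, y ∈ Q ↔ down y ∈ P ∧ up (down y) + cst = y

namespace Iso

variable {P : Set (Fin n → ℝ)} {Q : Set (Fin N → ℝ)} (I : Iso P Q)

theorem down_map (x : Fin n → ℝ) : I.down (I.up x + I.cst) = x := by
  rw [map_add, I.down_up, I.down_cst, add_zero]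

theorem map_mem {x : Fin n → ℝ} (hx : x ∈ P) : I.up x + I.cst ∈ Q := by
  rw [I.mem_iff, I.down_map]
  exact ⟨hx, rfl⟩

theorem ext_up {x : Fin n → ℝ} (hx : x ∈ P.extremePoints ℝ) :
    I.up x + I.cst ∈ Q.extremePoints ℝ := by
  rw [mem_extremePoints_iff_left] at hx ⊢
  refine ⟨I.map_mem hx.1, fun p hp q hq hpq => ?_⟩
  rw [I.mem_iff] at hp hq
  obtain ⟨a, b, ha, hb, hab, h0⟩ := hpq
  have h1 := hx.2 _ hp.1 _ hq.1 ⟨a, b, ha, hb, hab, by
    rw [← map_smul, ← map_smul, ← map_add, h0, I.down_map]⟩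
  rw [← hp.2, h1]

theorem ext_down {y : Fin N → ℝ} (hy : y ∈ Q.extremePoints ℝ) :
    I.down y ∈ P.extremePoints ℝ := by
  rw [mem_extremePoints_iff_left] at hy ⊢
  obtain ⟨h1, h2⟩ := (I.mem_iff y).1 hy.1
  refine ⟨h1, fun p hp q hq hpq => ?_⟩
  obtain ⟨a, b, ha, hb, hab, h0⟩ := hpq
  have h3 := hy.2 (I.up p + I.cst) (I.map_mem hp) (I.up q + I.cst)
    (I.map_mem hq) ⟨a, b, ha, hb, hab, by
      rw [← h2, ← h0, map_add, map_smul, map_smul]
      have hb' : b = 1 - a := by linarith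
      subst hb'
      module⟩
  rw [← h3, I.down_map]

theorem exposed_down {S : Set (Fin N → ℝ)} (hS : IsExposed ℝ Q S) :
    IsExposed ℝ P (I.down '' S) := by
  intro hne
  obtain ⟨l, hl⟩ := hS (by obtain ⟨_, x, hx, -⟩ := hne; exact ⟨x, hx⟩)
  have hup : ∀ x ∈ P, I.up x + I.cst ∈ Q := fun x hx => I.map_mem hx
  refine ⟨l.comp (LinearMap.toContinuousLinearMap I.up), ?_⟩
  ext x
  constructor
  · rintro ⟨y, hy, rfl⟩
    rw [hl] at hy
    obtain ⟨h1, h2⟩ := (I.mem_iff y).1 hy.1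
    refine ⟨h1, fun z hz => ?_⟩
    have h3 := hy.2 _ (hup z hz)
    rw [← h2, map_add, map_add] at h3
    simpa using h3
  · rintro ⟨hx, hm⟩
    refine ⟨I.up x + I.cst, ?_, I.down_map x⟩
    rw [hl]
    refine ⟨hup x hx, fun w hw => ?_⟩
    obtain ⟨h1, h2⟩ := (I.mem_iff w).1 hw
    have h3 := hm _ h1
    rw [← h2, map_add, map_add]
    simpa using h3

theorem segment_down {y z : Fin N → ℝ} (h : IsExposed ℝ Q (segment ℝ y z)) :
    IsExposed ℝ P (segment ℝ (I.down y) (I.down z)) := by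
  have h1 := I.exposed_down h
  have h2 : I.down '' segment ℝ y z = segment ℝ (I.down y) (I.down z) :=
    image_segment ℝ I.down.toAffineMap y z
  rwa [h2] at h1

theorem ray_down {y e : Fin N → ℝ} (h : IsExposed ℝ Q {z | ∃ t : ℝ, 0 ≤ t ∧ z = y + t • e}) :
    IsExposed ℝ P {z | ∃ t : ℝ, 0 ≤ t ∧ z = I.down y + t • I.down e} := by
  have h1 := I.exposed_down h
  have h2 : I.down '' {z | ∃ t : ℝ, 0 ≤ t ∧ z = y + t • e} =
      {z | ∃ t : ℝ, 0 ≤ t ∧ z = I.down y + t • I.down e} := by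
    ext z
    constructor
    · rintro ⟨_, ⟨t, ht, rfl⟩, rfl⟩
      exact ⟨t, ht, by rw [map_add, map_smul]⟩
    · rintro ⟨t, ht, rfl⟩
      exact ⟨y + t • e, ⟨t, ht, rfl⟩, by rw [map_add, map_smul]⟩
  rwa [h2] at h1

end Iso

end Pool.Agent.J4.H72.SX
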