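import Pool.Agent.J4.H72.SX.Red

/-!
The isomorphism.
-/

set_option autoImplicit false

namespace Pool.Agent.J4.H72.SX

open Pool.Agent.Y644.QS Pool.Agent.H687R2.LLL Finset

section

variable {m n : ℕ} (A : Fin m → Fin n → ℚ) (b : Fin m → ℚ) (c v : Fin n → ℚ)

/-- the factor of the objective function -/
noncomputable def kap : ℝ := (zden (List.ofFn c ++ [0]) : ℝ) * dX v

theorem kap_pos : 0 < kap c v := by
  have h1 : (0 : ℝ) < zden (List.ofFn c ++ [0]) := by exact_mod_cast zden_pos _
  have h2 : (0 : ℝ) < dX v := by exact_mod_cast dX_pos v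
  exact mul_pos h1 h2

/-- the base values, linear part -/
noncomputable def zL (s : ℕ) : (Fin n → ℝ) →ₗ[ℝ] ℝ :=
  if s = 1 then kap c v • objL c
  else if h : 3 ≤ s ∧ s < n + 3 then (dX v : ℝ) • LinearMap.proj (⟨s - 3, by omega⟩ : Fin n) else 0

/-- the base values, constant part -/
noncomputable def zC (s : ℕ) : ℝ :=
  if s = 0 then 1 else if s = 1 then -(kap c v * obj c (re v)) else 0

/-- the coefficients of the transformed linear program -/
def cf (p s : ℕ) : ℤ := vi (BX (inp A b c v)) (KX (inp A b c v)) (mX (inp A b c v))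
  (coX (inp A b c v)) p s

/-- linear part -/
noncomputable def upL : (Fin n → ℝ) →ₗ[ℝ] (Fin (NX (inp A b c v) + 2) → ℝ) :=
  LinearMap.pi fun p => ∑ s ∈ range (n + 3), (cf A b c v p s : ℝ) • zL c v s

/-- constant part -/
noncomputable def cstL : Fin (NX (inp A b c v) + 2) → ℝ :=
  fun p => ∑ s ∈ range (n + 3), (cf A b c v p s : ℝ) * zC c v s

theorem lt_NX (j : Fin n) : (j : ℕ) + 3 < NX (inp A b c v) + 2 := by
  have := nX_inp A b c v
  unfold NX
  omega

/-- the inverse -/
noncomputable def downL : (Fin (NX (inp A b c v) + 2) → ℝ) →ₗ[ℝ] (Fin n → ℝ) :=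
  LinearMap.pi fun j => (dX v : ℝ)⁻¹ • LinearMap.proj (⟨(j : ℕ) + 3, lt_NX A b c v j⟩ :
    Fin (NX (inp A b c v) + 2))

theorem zL_zero (x : Fin n → ℝ) : zL c v 0 x = 0 := by
  simp [zL]

theorem zL_one (x : Fin n → ℝ) : zL c v 1 x = kap c v * obj c x := by
  simp [zL, objL_apply]

theorem zL_two (x : Fin n → ℝ) : zL c v 2 x = 0 := by
  simp [zL]

theorem zL_var (x : Fin n → ℝ) (j : Fin n) : zL c v (j + 3) x = dX v * x j := by
  unfold zL
  rw [if_neg (by omega), dif_pos ⟨by omega, by omega⟩]
  simp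

theorem zC_zero : zC c v 0 = 1 := by simp [zC]
theorem zC_one : zC c v 1 = -(kap c v * obj c (re v)) := by simp [zC]
theorem zC_two : zC c v 2 = 0 := by simp [zC]
theorem zC_var (j : Fin n) : zC c v (j + 3) = 0 := by
  unfold zC
  rw [if_neg (by omega), if_neg (by omega)]

theorem hBX : BX (inp A b c v) = n + 3 := by rw [BX, nX_inp]

theorem upL_apply (x : Fin n → ℝ) (p : Fin (NX (inp A b c v) + 2)) :
    upL A b c v x p = ∑ s ∈ range (n + 3), (cf A b c v p s : ℝ) * zL c v s x := by
  simp [upL]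

theorem downL_apply (y : Fin (NX (inp A b c v) + 2) → ℝ) (j : Fin n) :
    downL A b c v y j = (dX v : ℝ)⁻¹ * y ⟨(j : ℕ) + 3, lt_NX A b c v j⟩ := by
  simp [downL]

theorem cf_base {z : ℕ → ℝ} (hz : z 2 = 0) {p : ℕ} (hp : p < n + 3) :
    ∑ s ∈ range (n + 3), (cf A b c v p s : ℝ) * z s = z p := by
  have h := sum_base (B := BX (inp A b c v)) (K := KX (inp A b c v)) (m := mX (inp A b c v))
    (co := coX (inp A b c v)) hz (p := p) (by rw [hBX]; exact hp)
  rw [hBX] at h
  unfold cf
  rw [hBX]
  exact h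

theorem down_up (x : Fin n → ℝ) : downL A b c v (upL A b c v x) = x := by
  funext j
  rw [downL_apply, upL_apply, cf_base A b c v (z := fun s => zL c v s x) (zL_two c v x)
    (p := (j : ℕ) + 3) (by omega), zL_var]
  have h2 : (dX v : ℝ) ≠ 0 := by exact_mod_cast (dX_pos v).ne'
  field_simp

theorem down_cst : downL A b c v (cstL A b c v) = 0 := by
  funext j
  rw [downL_apply]
  unfold cstL
  rw [cf_base A b c v (z := zC c v) (zC_two c v) (p := (j : ℕ) + 3) (by omega), zC_var]
  simp

/-- the base values -/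
noncomputable def ZZ (x : Fin n → ℝ) (s : ℕ) : ℝ := zL c v s x + zC c v s

theorem ZZ_zero (x : Fin n → ℝ) : ZZ c v x 0 = 1 := by rw [ZZ, zL_zero, zC_zero]; ring
theorem ZZ_one (x : Fin n → ℝ) : ZZ c v x 1 = kap c v * (obj c x - obj c (re v)) := by
  rw [ZZ, zL_one, zC_one]; ring
theorem ZZ_two (x : Fin n → ℝ) : ZZ c v x 2 = 0 := by rw [ZZ, zL_two, zC_two]; ring
theorem ZZ_var (x : Fin n → ℝ) (j : Fin n) : ZZ c v x (j + 3) = dX v * x j := by
  rw [ZZ, zL_var, zC_var]; ring

theorem up_cst (x : Fin n → ℝ) (p : Fin (NX (inp A b c v) + 2)) :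
    (upL A b c v x + cstL A b c v) p = ∑ s ∈ range (n + 3), (cf A b c v p s : ℝ) * ZZ c v x s := by
  rw [Pi.add_apply, upL_apply, cstL, ← sum_add_distrib]
  exact sum_congr rfl fun s _ => by rw [ZZ]; ring

theorem hco2 (f : ℕ) : coX (inp A b c v) f 2 = 0 := by
  unfold coX
  rw [czX_two A b c v (Or.inr rfl)]
  simp

theorem hNX : NX (inp A b c v) + 2 = BX (inp A b c v) + TT (BX (inp A b c v))
    (KX (inp A b c v)) (mX (inp A b c v)) + mX (inp A b c v) := by
  unfold NX BX
  omega

theorem mem_iff' (y : Fin (NX (inp A b c v) + 2) → ℝ) :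
    y ∈ polyhedron (mA (NX (inp A b c v) + 2) (tX (inp A b c v)))
      (mb (NX (inp A b c v) + 2) (tX (inp A b c v))) ↔
    downL A b c v y ∈ {z | z ∈ polyhedron A b ∧ obj c (re v) ≤ obj c z} ∧
      upL A b c v (downL A b c v y) + cstL A b c v = y := by
  have hD : (0 : ℝ) < dX v := by exact_mod_cast dX_pos v
  have hdc : (0 : ℝ) < zden (List.ofFn c ++ [0]) := by exact_mod_cast zden_pos _
  have hBX := hBX A b c v
  have hm := mX_inp A b c v
  have hNX := hNX A b c v
  rw [mem_poly]
  constructor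
  · rintro ⟨h0, h1, h2⟩
    obtain ⟨u1, u2, u3⟩ := uniq (B := BX (inp A b c v)) (K := KX (inp A b c v))
      (m := mX (inp A b c v)) (co := coX (inp A b c v)) (by omega) (coX_lt _) (hco2 A b c v) h1
    have hext : ∀ p, 0 ≤ ext y p := by
      intro p
      unfold ext
      split_ifs with h
      · exact h2 _
      · exact le_rfl
    have hvar : ∀ j : Fin n, ext y (j + 3) = dX v * downL A b c v y j := by
      intro j
      rw [downL_apply, ext, dif_pos (lt_NX A b c v j)]
      field_simp
    have hZ : ∀ s < n + 3, ext y s = ZZ c v (downL A b c v y) s := by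
      intro s hs
      rcases s with _ | _ | _ | s
      · rw [ZZ_zero]; exact h0
      · rw [ZZ_one, u3, hBX, hm]
        simp only [coX_sub]
        rw [form_last, h0]
        have e1 : ∑ j : Fin n, (c j : ℝ) * ext y (j + 3) = dX v * obj c (downL A b c v y) := by
          unfold obj
          rw [Finset.mul_sum]
          exact sum_congr rfl fun j _ => by rw [hvar]; ring
        rw [e1]
        unfold kap
        ring
      · rw [ZZ_two]; exact u1
      · exact (hvar ⟨s, by omega⟩).trans (ZZ_var c v _ ⟨s, by omega⟩).symm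
    refine ⟨⟨⟨fun i => ?_, fun j => ?_⟩, ?_⟩, ?_⟩
    · have h3 := hext (BX (inp A b c v) + TT (BX (inp A b c v)) (KX (inp A b c v))
        (mX (inp A b c v)) + i)
      rw [u2 _ (by have := i.2; omega)] at h3
      simp only [vi_slack] at h3
      have e2 : ∑ s ∈ range (BX (inp A b c v)), ((((coX (inp A b c v) (2 * i + 1) s : ℕ) : ℤ) -
          ((coX (inp A b c v) (2 * i) s : ℕ) : ℤ) : ℤ) : ℝ) * ext y s =
          -∑ s ∈ range (n + 3), (czX (inp A b c v) i s : ℝ) * ext y s := by
        rw [hBX, ← sum_neg_distrib]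
        refine sum_congr rfl fun s _ => ?_
        rw [← coX_sub]
        push_cast
        ring
      rw [e2, form_row A b c v i.2, h0] at h3
      have hdi : (0 : ℝ) < zden (List.ofFn (A ⟨i, i.2⟩) ++ [-b ⟨i, i.2⟩]) := by
        exact_mod_cast zden_pos _
      have e3 : ∑ j : Fin n, (A ⟨i, i.2⟩ j : ℝ) * ext y (j + 3) =
          dX v * ∑ j : Fin n, (A i j : ℝ) * downL A b c v y j := by
        rw [Finset.mul_sum]
        exact sum_congr rfl fun j _ => by rw [hvar]; ring
      rw [e3] at h3
      have h4 : dX v * ∑ j : Fin n, (A i j : ℝ) * downL A b c v y j - (b i : ℝ) * (dX v * 1) ≤ 0 := by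
        by_contra hcon
        push Not at hcon
        have := mul_pos hdi hcon
        linarith
      have h5 : (dX v : ℝ) * ∑ j : Fin n, (A i j : ℝ) * downL A b c v y j ≤ dX v * b i := by
        linarith
      exact le_of_mul_le_mul_left h5 hD
    · rw [downL_apply]
      exact mul_nonneg (inv_nonneg.2 hD.le) (h2 _)
    · have h3 := hext 1
      rw [hZ 1 (by omega), ZZ_one] at h3
      have := nonneg_of_mul_nonneg_right h3 (kap_pos c v)
      linarith
    · funext p
      rw [up_cst]
      have h3 := u2 p (by have := p.2; omega)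
      rw [ext_val] at h3
      rw [h3, hBX]
      refine sum_congr rfl fun s hs => ?_
      rw [hZ s (mem_range.1 hs)]
      unfold cf
      rw [hBX]
  · rintro ⟨⟨⟨h1, h2⟩, h3⟩, h4⟩
    set x := downL A b c v y with hx
    have hy : ∀ p : ℕ, p < NX (inp A b c v) + 2 → ext y p =
        ∑ s ∈ range (BX (inp A b c v)), (vi (BX (inp A b c v)) (KX (inp A b c v))
          (mX (inp A b c v)) (coX (inp A b c v)) p s : ℝ) * ZZ c v x s := by
      intro p hp
      rw [ext, dif_pos hp, ← h4, up_cst, hBX]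
      unfold cf
      rw [hBX]
    have hZ0 : ∀ s, s < n + 3 → 0 ≤ ZZ c v x s := by
      intro s hs
      rcases s with _ | _ | _ | s
      · rw [ZZ_zero]; exact zero_le_one
      · rw [ZZ_one]; exact mul_nonneg (kap_pos c v).le (by linarith)
      · rw [ZZ_two]
      · rw [ZZ_var c v x ⟨s, by omega⟩]
        exact mul_nonneg hD.le (h2 _)
    refine ⟨?_, fun t ht => ?_, fun p => ?_⟩
    · rw [hy 0 (by omega), sum_base (p := 0) (ZZ_two c v x) (by omega), ZZ_zero]
    · obtain ⟨l1, l2, l3⟩ := trips_lt (B := BX (inp A b c v)) (K := KX (inp A b c v))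
        (m := mX (inp A b c v)) (co := coX (inp A b c v)) (by omega) ht
      rw [hy _ (by omega), hy _ (by omega), hy _ (by omega)]
      refine sound (by omega) (coX_lt _) (hco2 A b c v) (ZZ_two c v x) ?_ ht
      rw [ZZ_one, hBX, hm]
      simp only [coX_sub]
      rw [form_last, ZZ_zero]
      have e1 : ∑ j : Fin n, (c j : ℝ) * ZZ c v x (j + 3) = dX v * obj c x := by
        unfold obj
        rw [Finset.mul_sum]
        exact sum_congr rfl fun j _ => by rw [ZZ_var]; ring
      rw [e1]
      unfold kap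
      ring
    · have h5 := hy p p.2
      rw [ext_val] at h5
      rw [h5]
      rcases lt_or_ge (p : ℕ) (BX (inp A b c v) + TT (BX (inp A b c v)) (KX (inp A b c v))
        (mX (inp A b c v))) with h | h
      · refine sum_nonneg fun s hs => mul_nonneg ?_ (hZ0 s (by rw [← hBX]; exact mem_range.1 hs))
        rw [vi, if_pos h]
        push_cast
        exact Nat.cast_nonneg _
      · obtain ⟨i, hi⟩ : ∃ i, (p : ℕ) = BX (inp A b c v) + TT (BX (inp A b c v))
          (KX (inp A b c v)) (mX (inp A b c v)) + i := ⟨(p : ℕ) - (BX (inp A b c v) +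
            TT (BX (inp A b c v)) (KX (inp A b c v)) (mX (inp A b c v))), by omega⟩
        have him : i < m := by have := p.2; omega
        rw [hi]
        simp only [vi_slack]
        have e2 : ∑ s ∈ range (BX (inp A b c v)), ((((coX (inp A b c v) (2 * i + 1) s : ℕ) : ℤ) -
            ((coX (inp A b c v) (2 * i) s : ℕ) : ℤ) : ℤ) : ℝ) * ZZ c v x s =
            -∑ s ∈ range (n + 3), (czX (inp A b c v) i s : ℝ) * ZZ c v x s := by
          rw [hBX, ← sum_neg_distrib]
          refine sum_congr rfl fun s _ => ?_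
          rw [← coX_sub]
          push_cast
          ring
        rw [e2, form_row A b c v him, ZZ_zero]
        have hdi : (0 : ℝ) < zden (List.ofFn (A ⟨i, him⟩) ++ [-b ⟨i, him⟩]) := by
          exact_mod_cast zden_pos _
        have e3 : ∑ j : Fin n, (A ⟨i, him⟩ j : ℝ) * ZZ c v x (j + 3) =
            dX v * ∑ j : Fin n, (A ⟨i, him⟩ j : ℝ) * x j := by
          rw [Finset.mul_sum]
          exact sum_congr rfl fun j _ => by rw [ZZ_var]; ring
        rw [e3]
        have h6 := mul_le_mul_of_nonneg_left (h1 ⟨i, him⟩) hD.le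
        have h7 : 0 ≤ (zden (List.ofFn (A ⟨i, him⟩) ++ [-b ⟨i, him⟩]) : ℝ) *
            ((b ⟨i, him⟩ : ℝ) * (dX v * 1) - dX v * ∑ j : Fin n, (A ⟨i, him⟩ j : ℝ) * x j) :=
          mul_nonneg hdi.le (by linarith)
        linarith

/-- the isomorphism -/
noncomputable def iso : Iso {z | z ∈ polyhedron A b ∧ obj c (re v) ≤ obj c z}
    (polyhedron (mA (NX (inp A b c v) + 2) (tX (inp A b c v)))
      (mb (NX (inp A b c v) + 2) (tX (inp A b c v)))) where
  up := upL A b c v
  cst := cstL A b c v
  down := downL A b c v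
  down_up := down_up A b c v
  down_cst := down_cst A b c v
  mem_iff := mem_iff' A b c v

end

end Pool.Agent.J4.H72.SX
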