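import Pool.Agent.J4.H72.SX.Iso

/-!
Simplex paths of the elementary linear program give simplex paths of the given one.
-/

set_option autoImplicit false

namespace Pool.Agent.J4.H72.SX

open Pool.Agent.Y644.QS Pool.Agent.H687R2.LLL Finset

theorem convex_poly {m n : ℕ} (A : Fin m → Fin n → ℚ) (b : Fin m → ℚ) :
    Convex ℝ (polyhedron A b) := by
  intro x hx y hy s t hs ht hst
  refine ⟨fun i => ?_, fun j => ?_⟩
  · have h1 := mul_le_mul_of_nonneg_left (hx.1 i) hs
    have h2 := mul_le_mul_of_nonneg_left (hy.1 i) ht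
    have h3 : ∑ j, (A i j : ℝ) * (s • x + t • y) j =
        s * ∑ j, (A i j : ℝ) * x j + t * ∑ j, (A i j : ℝ) * y j := by
      rw [Finset.mul_sum, Finset.mul_sum, ← sum_add_distrib]
      refine sum_congr rfl fun j _ => ?_
      simp only [Pi.add_apply, Pi.smul_apply, smul_eq_mul]
      ring
    rw [h3]
    have h4 : s * (b i : ℝ) + t * (b i : ℝ) = b i := by rw [← add_mul, hst, one_mul]
    linarith
  · have h1 := mul_nonneg hs (hx.2 j)
    have h2 := mul_nonneg ht (hy.2 j)
    simp only [Pi.add_apply, Pi.smul_apply, smul_eq_mul]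
    linarith

theorem obj_single {n : ℕ} (y : Fin (n + 2) → ℝ) : obj (Pi.single 1 1) y = y 1 := by
  unfold obj
  rw [Finset.sum_eq_single 1]
  · simp
  · intro j _ hj
    rw [Pi.single_eq_of_ne hj]
    simp
  · simp

section

variable {m n : ℕ} (A : Fin m → Fin n → ℚ) (b : Fin m → ℚ) (c v : Fin n → ℚ)

/-- the start vertex -/
def vE : Fin (NX (inp A b c v) + 2) → ℚ := fun p => vX (inp A b c v) p

/-- the points of the given linear program -/
def dnE (y : Fin (NX (inp A b c v) + 2) → ℚ) : Fin n → ℚ :=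
  fun j => y ⟨(j : ℕ) + 3, lt_NX A b c v j⟩ / (dX v : ℚ)

theorem zX_eq {s : ℕ} (hs : s < n + 3) : (zX (inp A b c v) s : ℝ) = ZZ c v (re v) s := by
  rcases s with _ | _ | _ | s
  · rw [ZZ_zero]; simp [zX]
  · rw [ZZ_one]; simp [zX]
  · rw [ZZ_two]; simp [zX]
  · rw [ZZ_var c v _ ⟨s, by omega⟩]
    unfold zX
    rw [if_neg (by omega), if_neg (by omega)]
    exact startV_get A b c v ⟨s, by omega⟩

theorem re_vE : re (vE A b c v) = upL A b c v (re v) + cstL A b c v := by
  funext p
  rw [up_cst]
  show ((vE A b c v p : ℚ) : ℝ) = _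
  unfold vE vX
  rw [Rat.mkRat_eq_div]
  rw [show ((List.range (BX (inp A b c v))).map fun s => vi (BX (inp A b c v)) (KX (inp A b c v))
    (mX (inp A b c v)) (coX (inp A b c v)) p s * zX (inp A b c v) s).sum =
    ∑ s ∈ range (BX (inp A b c v)), vi (BX (inp A b c v)) (KX (inp A b c v))
      (mX (inp A b c v)) (coX (inp A b c v)) p s * zX (inp A b c v) s from rfl]
  push_cast
  rw [div_one, hBX]
  refine sum_congr rfl fun s hs => ?_
  rw [zX_eq A b c v (mem_range.1 hs)]
  unfold cf
  rw [hBX]

theorem re_dnE (y : Fin (NX (inp A b c v) + 2) → ℚ) :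
    re (dnE A b c v y) = downL A b c v (re y) := by
  funext j
  rw [downL_apply]
  unfold re dnE
  push_cast
  rw [div_eq_inv_mul]

theorem dnE_vE : dnE A b c v (vE A b c v) = v := by
  have h : re (dnE A b c v (vE A b c v)) = re v := by
    rw [re_dnE, re_vE, map_add, down_up, down_cst, add_zero]
  funext j
  have := congrFun h j
  unfold re at this
  exact_mod_cast this

theorem vE_one : vE A b c v 1 = 0 := by
  have h := congrFun (re_vE A b c v) 1
  rw [up_cst, cf_base A b c v (p := ((1 : Fin (NX (inp A b c v) + 2)) : ℕ)) (ZZ_two c v _)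
    (by simp)] at h
  have h1 : ((1 : Fin (NX (inp A b c v) + 2)) : ℕ) = 1 := rfl
  rw [h1, ZZ_one, sub_self, mul_zero] at h
  unfold re at h
  exact_mod_cast h

theorem elem_TrX : Elementary (mA (NX (inp A b c v) + 2) (tX (inp A b c v)))
    (mb (NX (inp A b c v) + 2) (tX (inp A b c v))) (Pi.single 1 1) (vE A b c v) := by
  refine elementary (fun t ht => ?_) (vE_one A b c v)
  obtain ⟨l1, l2, l3⟩ := trips_lt (B := BX (inp A b c v)) (K := KX (inp A b c v))
    (m := mX (inp A b c v)) (co := coX (inp A b c v)) (by rw [hBX]; omega) ht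
  have := hNX A b c v
  exact ⟨by omega, by omega, by omega⟩

theorem inp_TrX : inp (mA (NX (inp A b c v) + 2) (tX (inp A b c v)))
    (mb (NX (inp A b c v) + 2) (tX (inp A b c v))) (Pi.single 1 1) (vE A b c v) =
      TrX (inp A b c v) := by
  have h1 : List.ofFn (Pi.single 1 1 : Fin (NX (inp A b c v) + 2) → ℚ) =
      (List.range (NX (inp A b c v) + 2)).map (fun s => if s = 1 then 1 else 0) := by
    refine List.ext_getElem (by simp) fun i h1 h2 => ?_
    rw [List.getElem_ofFn, List.getElem_map, List.getElem_range, Pi.single_apply]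
    simp only [Fin.ext_iff]
    rfl
  have h2 : List.ofFn (vE A b c v) =
      (List.range (NX (inp A b c v) + 2)).map (vX (inp A b c v)) := by
    refine List.ext_getElem (by simp) fun i h1 h2 => ?_
    rw [List.getElem_ofFn, List.getElem_map, List.getElem_range]
    rfl
  rw [show inp (mA (NX (inp A b c v) + 2) (tX (inp A b c v)))
    (mb (NX (inp A b c v) + 2) (tX (inp A b c v))) (Pi.single 1 1) (vE A b c v) =
    (List.ofFn fun i => List.ofFn (mA (NX (inp A b c v) + 2) (tX (inp A b c v)) i),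
      List.ofFn (mb (NX (inp A b c v) + 2) (tX (inp A b c v))),
      List.ofFn (Pi.single 1 1 : Fin (NX (inp A b c v) + 2) → ℚ), List.ofFn (vE A b c v))
    from rfl, h1, h2, ofFn_mA, ofFn_mb]
  rfl

variable {A b c v}

theorem ext_vE (hv : re v ∈ Set.extremePoints ℝ (polyhedron A b)) : re (vE A b c v) ∈
    Set.extremePoints ℝ (polyhedron (mA (NX (inp A b c v) + 2) (tX (inp A b c v)))
      (mb (NX (inp A b c v) + 2) (tX (inp A b c v)))) := by
  rw [re_vE]
  refine (iso A b c v).ext_up ?_
  refine inter_extremePoints_subset_extremePoints_of_subset (𝕜 := ℝ) (A := polyhedron A b) ?_ ⟨?_, hv⟩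
  · exact fun z hz => hz.1
  · exact ⟨hv.1, le_rfl⟩

theorem path_E (hv : re v ∈ Set.extremePoints ℝ (polyhedron A b)) {T : ℕ}
    {y : ℕ → Fin (NX (inp A b c v) + 2) → ℚ} {d : Option (Fin (NX (inp A b c v) + 2) → ℚ)}
    (h : IsSimplexPath (polyhedron (mA (NX (inp A b c v) + 2) (tX (inp A b c v)))
      (mb (NX (inp A b c v) + 2) (tX (inp A b c v)))) (Pi.single 1 1) (vE A b c v) T y d) :
    IsSimplexPath (polyhedron A b) c v T (fun k => dnE A b c v (y k)) (d.map (dnE A b c v)) := by
  refine path_down (convex_poly A b) hv (iso A b c v) (dnE A b c v) (re_dnE A b c v) (kap c v)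
    (kap_pos c v) (-(kap c v * obj c (re v))) (fun x => ?_) (fun x => ?_) (dnE_vE A b c v) h
  · rw [obj_single]
    have h1 : ((1 : Fin (NX (inp A b c v) + 2)) : ℕ) = 1 := rfl
    have h2 := up_cst A b c v x 1
    rw [cf_base A b c v (p := ((1 : Fin (NX (inp A b c v) + 2)) : ℕ)) (ZZ_two c v x)
      (by rw [h1]; omega), h1, ZZ_one] at h2
    refine h2.trans ?_
    ring
  · rw [obj_single]
    have h1 : ((1 : Fin (NX (inp A b c v) + 2)) : ℕ) = 1 := rfl
    have h2 := upL_apply A b c v x 1
    rw [cf_base A b c v (z := fun s => zL c v s x) (p := ((1 : Fin (NX (inp A b c v) + 2)) : ℕ))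
      (zL_two c v x) (by rw [h1]; omega), h1, zL_one] at h2
    exact h2

end

/-! ### Decoding -/

/-- a point -/
def dl (x : Inp) (y : List ℚ) : List ℚ := (List.range (nX x)).map fun j =>
  mkRat (y.getD (j + 3) 0).num ((y.getD (j + 3) 0).den * ((startV x).getD (nX x) 0).toNat)

/-- the output -/
def dO (x : Inp) (o : Outp) : Outp := (o.1.map (dl x), o.2.map (dl x))

theorem dl_ofFn {m n : ℕ} (A : Fin m → Fin n → ℚ) (b : Fin m → ℚ) (c v : Fin n → ℚ)
    (y : Fin (NX (inp A b c v) + 2) → ℚ) :
    dl (inp A b c v) (List.ofFn y) = List.ofFn (dnE A b c v y) := by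
  have key : ∀ i : Fin n, mkRat ((List.ofFn y).getD (i + 3) 0).num
      (((List.ofFn y).getD (i + 3) 0).den *
        ((startV (inp A b c v)).getD (nX (inp A b c v)) 0).toNat) = dnE A b c v y i := by
    intro i
    rw [nX_inp, startV_last]
    have h3 := lt_NX A b c v i
    rw [List.getD_eq_getElem _ _ (by rw [List.length_ofFn]; exact h3), List.getElem_ofFn,
      Rat.mkRat_eq_div]
    unfold dnE
    rw [Int.toNat_natCast]
    push_cast
    rw [← div_div, Rat.num_div_den]
  rw [show dl (inp A b c v) (List.ofFn y) = (List.range (nX (inp A b c v))).map fun j =>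
    mkRat ((List.ofFn y).getD (j + 3) 0).num (((List.ofFn y).getD (j + 3) 0).den *
      ((startV (inp A b c v)).getD (nX (inp A b c v)) 0).toNat) from rfl]
  refine List.ext_getElem (by simp [nX_inp]) fun i h1 h2 => ?_
  rw [List.getElem_map, List.getElem_range, List.getElem_ofFn]
  exact key ⟨i, by simpa using h2⟩

end Pool.Agent.J4.H72.SX
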