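import Pool.Agent.Y644.QS.Seq
import Pool.Agent.J4.H72.SX.Geo

/-!
Simplex paths under cutting by the level set of the start vertex and affine isomorphisms.
-/

set_option autoImplicit false

namespace Pool.Agent.J4.H72.SX

open Set Pool.Agent.Y644.QS

variable {n N : ℕ}

/-- the objective function as a linear map -/
noncomputable def objL (c : Fin n → ℚ) : (Fin n → ℝ) →ₗ[ℝ] ℝ where
  toFun := obj c
  map_add' x y := by simp [obj, mul_add, Finset.sum_add_distrib]
  map_smul' a x := by
    simp only [obj, Pi.smul_apply, smul_eq_mul, RingHom.id_apply, Finset.mul_sum]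
    exact Finset.sum_congr rfl fun j _ => by ring

theorem objL_apply (c : Fin n → ℚ) (x : Fin n → ℝ) : objL c x = obj c x := rfl

theorem path_down {P : Set (Fin n → ℝ)} {Q : Set (Fin N → ℝ)} (hP : Convex ℝ P)
    {c v : Fin n → ℚ} {c' v' : Fin N → ℚ} (hv : re v ∈ P.extremePoints ℝ)
    (I : Iso {z | z ∈ P ∧ obj c (re v) ≤ obj c z} Q)
    (dn : (Fin N → ℚ) → (Fin n → ℚ)) (hdn : ∀ y, re (dn y) = I.down (re y))
    (κ : ℝ) (hκ : 0 < κ) (β : ℝ) (hobj : ∀ x, obj c' (I.up x + I.cst) = κ * obj c x + β)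
    (hobjd : ∀ x, obj c' (I.up x) = κ * obj c x) (hv' : dn v' = v)
    {T : ℕ} {y : ℕ → Fin N → ℚ} {d : Option (Fin N → ℚ)} (h : IsSimplexPath Q c' v' T y d) :
    IsSimplexPath P c v T (fun k => dn (y k)) (d.map dn) := by
  obtain ⟨h0, h1, h2, h3, h4⟩ := h
  have hQ : ∀ z ∈ Q, obj c' z = κ * obj c (I.down z) + β := by
    intro z hz
    have := ((I.mem_iff z).1 hz).2
    conv_lhs => rw [← this]
    exact hobj _
  have hmem : ∀ k ≤ T, re (y k) ∈ Q := fun k hk => (h1 k hk).1
  have hmem2 : ∀ k ≤ T, re (dn (y k)) ∈ {z | z ∈ P ∧ obj c (re v) ≤ obj c z} := fun k hk => by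
    rw [hdn]; exact ((I.mem_iff _).1 (hmem k hk)).1
  have hlt : ∀ k < T, obj c (re (dn (y k))) < obj c (re (dn (y (k + 1)))) := by
    intro k hk
    have h5 := (h2 k hk).2
    rw [hQ _ (hmem k hk.le), hQ _ (hmem (k + 1) hk)] at h5
    rw [hdn, hdn]
    have h6 : κ * obj c (I.down (re (y k))) < κ * obj c (I.down (re (y (k + 1)))) := by linarith
    exact lt_of_mul_lt_mul_left h6 hκ.le
  have hx0 : dn (y 0) = v := by rw [h0, hv']
  have hext : ∀ k ≤ T, re (dn (y k)) ∈ P.extremePoints ℝ := by
    intro k hk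
    rcases Nat.eq_zero_or_pos k with rfl | hpos
    · rw [hx0]; exact hv
    · obtain ⟨j, rfl⟩ : ∃ j, k = j + 1 := ⟨k - 1, by omega⟩
      have h5 := I.ext_down (h1 (j + 1) hk)
      rw [← hdn] at h5
      refine extreme_of_half hP (objL c) (obj c (re v)) h5 ?_
      exact lt_of_le_of_lt (hmem2 j (by omega)).2 (hlt j (by omega))
  refine ⟨hx0, hext, fun k hk => ⟨?_, hlt k hk⟩, ?_, ?_⟩
  · have h5 := I.segment_down (h2 k hk).1
    rw [← hdn, ← hdn] at h5
    refine exposed_of_half hP (objL c) (obj c (re v)) h5 (left_mem_segment ℝ _ _)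
      (right_mem_segment ℝ _ _) (hext k hk.le) (hlt k hk) ?_
    rintro z ⟨a, b, ha, hb, hab, rfl⟩ hz
    have h6 := hlt k hk
    rw [map_add, map_smul, map_smul, smul_eq_mul, smul_eq_mul, objL_apply, objL_apply] at hz
    have ha' : a = 1 - b := by linarith
    subst ha'
    have hb0 : b = 0 := by
      by_contra hne
      have hbp : 0 < b := lt_of_le_of_ne hb (Ne.symm hne)
      nlinarith
    subst hb0
    simp
  · intro hd z hz
    have hd' : d = none := by
      cases d with
      | none => rfl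
      | some e => simp at hd
    rcases le_or_gt (obj c (re v)) (obj c z) with h5 | h5
    · have h6 := h3 hd' _ (I.map_mem (x := z) ⟨hz, h5⟩)
      rw [hobj, hQ _ (hmem T le_rfl)] at h6
      rw [hdn]
      have h7 : κ * obj c z ≤ κ * obj c (I.down (re (y T))) := by linarith
      exact le_of_mul_le_mul_left h7 hκ
    · exact h5.le.trans (hmem2 T le_rfl).2
  · intro e he
    obtain ⟨e', hd', rfl⟩ : ∃ e', d = some e' ∧ dn e' = e := by
      cases d with
      | none => simp at he
      | some e' => exact ⟨e', rfl, by simpa using he⟩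
    obtain ⟨h5, h6⟩ := h4 e' hd'
    have h7 : re (y T) + (1 : ℝ) • re e' ∈ Q := h5.subset ⟨1, zero_le_one, rfl⟩
    rw [one_smul] at h7
    have h8 : I.up (I.down (re e')) = re e' := by
      have e1 := ((I.mem_iff _).1 h7).2
      have e2 := ((I.mem_iff _).1 (hmem T le_rfl)).2
      rw [map_add, map_add] at e1
      have : I.up (I.down (re (y T))) + I.up (I.down (re e')) + I.cst =
          (I.up (I.down (re (y T))) + I.cst) + I.up (I.down (re e')) := by abel
      rw [this, e2] at e1
      exact add_left_cancel e1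
    have h9 : 0 < obj c (re (dn e')) := by
      rw [← h8, hobjd, ← hdn] at h6
      exact (mul_pos_iff_of_pos_left hκ).1 h6
    have h10 := I.ray_down h5
    rw [← hdn, ← hdn] at h10
    refine ⟨?_, h9⟩
    refine exposed_of_half hP (objL c) (obj c (re v)) h10 (x := re (dn (y T)))
      (y := re (dn (y T)) + re (dn e')) ⟨0, le_rfl, by simp⟩ ⟨1, zero_le_one, by simp⟩
      (hext T le_rfl) ?_ ?_
    · rw [map_add, objL_apply, objL_apply]; linarith
    · rintro z ⟨t, ht, rfl⟩ hz
      rw [map_add, map_smul, smul_eq_mul, objL_apply, objL_apply] at hz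
      have ht0 : t = 0 := by
        by_contra hne
        have : 0 < t := lt_of_le_of_ne ht (Ne.symm hne)
        have := mul_pos this h9
        linarith
      subst ht0
      simp

end Pool.Agent.J4.H72.SX
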