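import Pool.Agent.J4.H72.SX.Main
import Pool.Agent.H578R2.Med.NPClos

/-!
The transformation is computable in polynomial time.
-/

set_option autoImplicit false

namespace Pool.Agent.NPC.H72X

open Pool.Agent.Y644.QS Pool.Agent.H687R2.LLL Pool.Agent.J4.H72.SX Pool.Agent.NPC.Y644

theorem two_pow_bits (n : ℕ) : (2 ^ n).bits = List.replicate n false ++ [true] := by
  induction n with
  | zero => simp
  | succ n ih =>
    have h : 2 ^ (n + 1) = Nat.bit false (2 ^ n) := by simp [Nat.bit]; ring
    rw [h, Nat.bits_append_bit _ _ (fun h0 => by simp at h0), ih]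
    rfl

theorem poly_two_pow {α : Type} [TEnc α] {n : α → ℕ} (hn : UPoly n) :
    Poly (fun a => 2 ^ n a) := by
  refine Poly.of_natBits ?_
  have : (fun a => (2 ^ n a).bits) = fun a => List.replicate (n a) false ++ [true] := by
    funext a
    exact two_pow_bits _
  rw [this]
  exact Poly.append (Poly.replicateU hn (Poly.const false)) (Poly.const [true])

section

variable {α : Type} [TEnc α] {B K t s m : α → ℕ} {co : α → ℕ → ℕ → ℕ}

theorem poly_pow_sub {k : α → ℕ} (hK : UPoly K) (hk : Poly k) :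
    Poly (fun a => 2 ^ (K a - k a)) :=
  poly_two_pow (UPoly.of_le (n := K) (Poly.sub hK.toPoly hk) hK fun _ => Nat.sub_le _ _)

theorem poly_pow_sub1 {k : α → ℕ} (hK : UPoly K) (hk : Poly k) :
    Poly (fun a => 2 ^ (K a - 1 - k a)) :=
  poly_two_pow (UPoly.of_le (n := K) (Poly.sub (Poly.sub hK.toPoly (Poly.const 1)) hk) hK
    fun _ => (Nat.sub_le _ _).trans (Nat.sub_le _ _))

theorem poly_Lb (hB : Poly B) (hK : UPoly K) : Poly (fun a => Lb (B a) (K a)) := by
  unfold Lb
  have := hK.toPoly
  fun_prop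

theorem poly_tri (hB : Poly B) (hK : UPoly K)
    (hco : Poly (fun p : α × ℕ × ℕ => co p.1 p.2.1 p.2.2)) (ht : Poly t) :
    Poly (fun a => tri (B a) (K a) (co a) (t a)) := by
  have hL := poly_Lb hB hK
  have hk : Poly (fun a => (t a % Lb (B a) (K a) - 1) / (B a + 2)) := by fun_prop
  have hp := poly_pow_sub1 hK hk
  have hc : Poly (fun a => co a (t a / Lb (B a) (K a))
      ((t a % Lb (B a) (K a) - 1) % (B a + 2) - 2)) := by
    refine hco.comp (f := fun a => (a, t a / Lb (B a) (K a),
      (t a % Lb (B a) (K a) - 1) % (B a + 2) - 2)) ?_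
    fun_prop
  unfold tri
  fun_prop

theorem poly_vc (hB : Poly B) (hK : UPoly K)
    (hco : Poly (fun p : α × ℕ × ℕ => co p.1 p.2.1 p.2.2)) (ht : Poly t) (hs : Poly s) :
    Poly (fun a => vc (B a) (K a) (co a) (t a) (s a)) := by
  have hL := poly_Lb hB hK
  have hk : Poly (fun a => ((t a - B a) % Lb (B a) (K a) - 1) / (B a + 2)) := by fun_prop
  have hp := poly_pow_sub1 hK hk
  have hp' := poly_pow_sub hK hk
  have hc : Poly (fun a => co a ((t a - B a) / Lb (B a) (K a)) (s a)) := by
    refine hco.comp (f := fun a => (a, (t a - B a) / Lb (B a) (K a), s a)) ?_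
    fun_prop
  unfold vc
  fun_prop

theorem poly_TT (hB : UPoly B) (hK : UPoly K) (hm : UPoly m) :
    UPoly (fun a => TT (B a) (K a) (m a)) := by
  unfold TT Lb
  fun_prop

theorem poly_vi (hB : UPoly B) (hK : UPoly K) (hm : UPoly m)
    (hco : Poly (fun p : α × ℕ × ℕ => co p.1 p.2.1 p.2.2)) (ht : Poly t) (hs : Poly s) :
    Poly (fun a => vi (B a) (K a) (m a) (co a) (t a) (s a)) := by
  have hB' := hB.toPoly
  have hT := (poly_TT hB hK hm).toPoly
  have h1 := poly_vc hB' hK hco ht hs
  have h2 : Poly (fun a => co a (2 * (t a - (B a + TT (B a) (K a) (m a))) + 1) (s a)) := by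
    refine hco.comp (f := fun a => (a, 2 * (t a - (B a + TT (B a) (K a) (m a))) + 1, s a)) ?_
    fun_prop
  have h3 : Poly (fun a => co a (2 * (t a - (B a + TT (B a) (K a) (m a)))) (s a)) := by
    refine hco.comp (f := fun a => (a, 2 * (t a - (B a + TT (B a) (K a) (m a))), s a)) ?_
    fun_prop
  unfold vi
  fun_prop

theorem poly_En {f : α → ℕ} (hB : Poly B) (hK : UPoly K) (hf : Poly f) :
    Poly (fun a => En (B a) (K a) (f a)) := by
  unfold En
  have h1 := poly_Lb hB hK
  have := hK.toPoly
  fun_prop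

theorem poly_trips (hB : UPoly B) (hK : UPoly K) (hm : UPoly m)
    (hco : Poly (fun p : α × ℕ × ℕ => co p.1 p.2.1 p.2.2)) :
    Poly (fun a => trips (B a) (K a) (m a) (co a)) := by
  unfold trips
  have hB' := hB.toPoly
  have hm' := hm.toPoly
  have hT := poly_TT hB hK hm
  have hT' := hT.toPoly
  have h1 : Poly (fun a => (List.range (TT (B a) (K a) (m a))).map (tri (B a) (K a) (co a))) := by
    refine Poly.map (F := fun a t => tri (B a) (K a) (co a) t) hT.range ?_
    exact poly_tri (B := fun p : α × ℕ => B p.1) (K := fun p => K p.1) (co := fun p => co p.1)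
      (t := fun p => p.2) (hB'.comp (Poly.fst Poly.id)) (hK.comp (Poly.fst Poly.id))
      (hco.comp (f := fun p : (α × ℕ) × ℕ × ℕ => (p.1.1, p.2.1, p.2.2)) (by fun_prop))
      (Poly.snd Poly.id)
  have hE : ∀ g : α × ℕ → ℕ, Poly g → Poly (fun p : α × ℕ => En (B p.1) (K p.1) (g p)) :=
    fun g hg => poly_En (hB'.comp (Poly.fst Poly.id)) (hK.comp (Poly.fst Poly.id)) hg
  have h2 : Poly (fun a => (List.range (m a)).map (fun i => (En (B a) (K a) (2 * i),
      B a + TT (B a) (K a) (m a) + i, En (B a) (K a) (2 * i + 1)))) := by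
    refine Poly.map (F := fun a i => (En (B a) (K a) (2 * i),
      B a + TT (B a) (K a) (m a) + i, En (B a) (K a) (2 * i + 1))) hm.range ?_
    have e1 := hE (fun p => 2 * p.2) (by fun_prop)
    have e2 := hE (fun p => 2 * p.2 + 1) (by fun_prop)
    have b1 : Poly (fun p : α × ℕ => B p.1) := hB'.comp (Poly.fst Poly.id)
    have b2 : Poly (fun p : α × ℕ => TT (B p.1) (K p.1) (m p.1)) := hT'.comp (Poly.fst Poly.id)
    exact Poly.pair e1 (Poly.pair (Poly.add (Poly.add b1 b2) (Poly.snd Poly.id)) e2)
  have e3 : Poly (fun a => En (B a) (K a) (2 * m a + 1)) := poly_En hB' hK (by fun_prop)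
  have e4 : Poly (fun a => En (B a) (K a) (2 * m a)) := poly_En hB' hK (by fun_prop)
  fun_prop

end

theorem poly_addQ01 {α : Type} [TEnc α] {p q r : α → Prop} [DecidablePred p] [DecidablePred q]
    [DecidablePred r] (hp : Poly (fun a => decide (p a))) (hq : Poly (fun a => decide (q a)))
    (hr : Poly (fun a => decide (r a))) : Poly (fun a =>
      (if p a then (1 : ℚ) else 0) + (if q a then 1 else 0) + (if r a then -1 else 0)) := by
  have h1 : Poly (fun a => mkRat ((if p a then (1 : ℤ) else 0) + (if q a then 1 else 0) +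
      (if r a then -1 else 0)) 1) := by
    refine poly_mkRat ?_ (Poly.const 1)
    exact NPC.Poly.iadd (NPC.Poly.iadd (Poly.ite hp (Poly.const 1) (Poly.const 0))
      (Poly.ite hq (Poly.const 1) (Poly.const 0))) (Poly.ite hr (Poly.const (-1)) (Poly.const 0))
  refine h1.congr fun a => ?_
  rw [Rat.mkRat_eq_div]
  push_cast
  rw [div_one]

theorem poly_rowQ {α : Type} [TEnc α] {N : α → ℕ} {t : α → ℕ × ℕ × ℕ} (hN : UPoly N)
    (ht : Poly t) : Poly (fun a => rowQ (N a) (t a)) := by
  unfold rowQ
  refine Poly.map (F := fun a s => (if s = (t a).1 then (1 : ℚ) else 0) +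
    (if s = (t a).2.1 then 1 else 0) + (if s = (t a).2.2 then -1 else 0)) hN.range ?_
  refine poly_addQ01 (p := fun p : α × ℕ => p.2 = (t p.1).1)
    (q := fun p : α × ℕ => p.2 = (t p.1).2.1) (r := fun p : α × ℕ => p.2 = (t p.1).2.2)
    ?_ ?_ ?_
  all_goals fun_prop

theorem poly_rowU {α : Type} [TEnc α] {N : α → ℕ} (hN : UPoly N) :
    Poly (fun a => rowU (N a)) := by
  unfold rowU
  refine Poly.map (F := fun _ s => if s = 0 then (1 : ℚ) else 0) hN.range ?_
  fun_prop

theorem poly_negQl {α : Type} [TEnc α] {l : α → List ℚ} (hl : Poly l) :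
    Poly (fun a => negQ (l a)) := by
  unfold negQ
  fun_prop

theorem poly_sysT {α : Type} [TEnc α] {N : α → ℕ} {T : α → List (ℕ × ℕ × ℕ)} (hN : UPoly N)
    (hT : Poly T) : Poly (fun a => sysT (N a) (T a)) := by
  unfold sysT
  have h1 : Poly (fun p : α × ℕ × ℕ × ℕ => rowQ (N p.1) p.2) :=
    poly_rowQ (N := fun p : α × ℕ × ℕ × ℕ => N p.1) (hN.comp (Poly.fst Poly.id))
      (Poly.snd Poly.id)
  have h2 := poly_negQl h1
  have h3 : Poly (fun a => (T a).flatMap (fun t => [(rowQ (N a) t, (0 : ℚ)),
      (negQ (rowQ (N a) t), 0)])) := by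
    refine Poly.flatMap (F := fun a t => [(rowQ (N a) t, (0 : ℚ)), (negQ (rowQ (N a) t), 0)]) hT ?_
    fun_prop
  have h4 := poly_rowU hN
  have h5 := poly_negQl h4
  fun_prop

/-! ### The transformation -/

theorem uBX : UPoly BX := by
  unfold BX nX
  fun_prop

theorem poly_czT : Poly czT := by
  unfold czT nX
  have h1 := poly_rowsA
  have h2 := poly_startV
  have h3 := poly_crow
  have h0 : UPoly (fun x : Inp => x.2.2.1.length) := by fun_prop
  have h4 : Poly (fun p : Inp × List ℤ => (List.range p.1.2.2.1.length).map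
      (fun j => p.2.getD j 0)) := by
    refine Poly.map (F := fun (p : Inp × List ℤ) j => p.2.getD j 0)
      (UPoly.range (h0.comp (Poly.fst Poly.id))) ?_
    fun_prop
  have h5 : Poly (fun x : Inp => (List.range x.2.2.1.length).map
      (fun j => (crow x).getD j 0)) := by
    refine Poly.map (F := fun (x : Inp) j => (crow x).getD j 0) h0.range ?_
    fun_prop
  have h6 : Poly (fun x : Inp => (List.range x.2.2.1.length).map
      (fun j => (crow x).getD j 0 * (startV x).getD j 0)) := by
    refine Poly.map (F := fun (x : Inp) j => (crow x).getD j 0 * (startV x).getD j 0)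
      h0.range ?_
    fun_prop
  have h7 : Poly (fun x : Inp => ((List.range x.2.2.1.length).map
      (fun j => (crow x).getD j 0 * (startV x).getD j 0)).sum) := Poly.isum h6
  have h8 : Poly (fun x : Inp => (rowsA x).map (fun r => [r.getD x.2.2.1.length 0 *
      (startV x).getD x.2.2.1.length 0, 0, 0] ++
        (List.range x.2.2.1.length).map (fun j => r.getD j 0))) := by
    refine Poly.map (F := fun (x : Inp) r => [r.getD x.2.2.1.length 0 *
      (startV x).getD x.2.2.1.length 0, 0, 0] ++
        (List.range x.2.2.1.length).map (fun j => r.getD j 0)) h1 ?_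
    refine Poly.append ?_ h4
    fun_prop
  refine Poly.append h8 ?_
  have h9 : Poly (fun x : Inp => -((List.range x.2.2.1.length).map
      (fun j => (crow x).getD j 0 * (startV x).getD j 0)).sum) := NPC.Poly.ineg h7
  fun_prop

theorem uKX : UPoly KX := by
  unfold KX
  exact UPoly.sz poly_czT

theorem umX : UPoly mX := by
  unfold mX
  exact UPoly.length poly_rowsA

theorem poly_coX : Poly (fun p : Inp × ℕ × ℕ => coX p.1 p.2.1 p.2.2) := by
  unfold coX czX
  have h1 := poly_czT
  fun_prop

theorem uNX : UPoly NX := by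
  unfold NX
  have h1 := poly_TT uBX uKX umX
  have h2 := umX
  have h3 : UPoly (fun x : Inp => nX x) := by unfold nX; fun_prop
  exact UPoly.add (UPoly.add (UPoly.add h3 (UPoly.const 1)) h1) h2

theorem poly_tX : Poly tX := by
  unfold tX
  exact poly_trips uBX uKX umX poly_coX

theorem poly_zX : Poly (fun p : Inp × ℕ => zX p.1 p.2) := by
  unfold zX
  have h2 := poly_startV
  fun_prop

theorem poly_vX : Poly (fun p : Inp × ℕ => vX p.1 p.2) := by
  unfold vX
  refine poly_mkRat (Poly.isum ?_) (Poly.const 1)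
  refine Poly.map (F := fun (p : Inp × ℕ) s => vi (BX p.1) (KX p.1) (mX p.1) (coX p.1) p.2 s *
    zX p.1 s) (uBX.comp (Poly.fst Poly.id)).range ?_
  refine NPC.Poly.imul ?_ (poly_zX.comp (f := fun p : (Inp × ℕ) × ℕ => (p.1.1, p.2))
    (by fun_prop))
  exact poly_vi (B := fun p : (Inp × ℕ) × ℕ => BX p.1.1) (K := fun p => KX p.1.1)
    (m := fun p => mX p.1.1) (co := fun p => coX p.1.1) (t := fun p => p.1.2)
    (s := fun p => p.2) (uBX.comp (by fun_prop)) (uKX.comp (by fun_prop)) (umX.comp (by fun_prop))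
    (poly_coX.comp (f := fun p : ((Inp × ℕ) × ℕ) × ℕ × ℕ => (p.1.1.1, p.2.1, p.2.2))
      (by fun_prop)) (by fun_prop) (by fun_prop)

theorem poly_TrX : Poly TrX := by
  unfold TrX
  have hN : UPoly (fun x : Inp => NX x + 2) := UPoly.add uNX (UPoly.const 2)
  have h1 : Poly (fun x : Inp => sysT (NX x + 2) (tX x)) := poly_sysT hN poly_tX
  have h2 : Poly (fun x : Inp => (sysT (NX x + 2) (tX x)).map Prod.fst) :=
    Poly.map (F := fun _ p => Prod.fst p) h1 (by fun_prop)
  have h3 : Poly (fun x : Inp => (sysT (NX x + 2) (tX x)).map Prod.snd) :=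
    Poly.map (F := fun _ p => Prod.snd p) h1 (by fun_prop)
  have h4 : Poly (fun x : Inp => (List.range (NX x + 2)).map
      (fun s => if s = 1 then (1 : ℚ) else 0)) :=
    Poly.map (F := fun _ s => if s = 1 then (1 : ℚ) else 0) hN.range (by fun_prop)
  have h5 : Poly (fun x : Inp => (List.range (NX x + 2)).map (vX x)) :=
    Poly.map (F := fun x s => vX x s) hN.range poly_vX
  exact Poly.pair h2 (Poly.pair h3 (Poly.pair h4 h5))

theorem poly_dl : Poly (fun p : Inp × List ℚ => dl p.1 p.2) := by
  unfold dl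
  have h0 : UPoly (fun x : Inp => nX x) := by unfold nX; fun_prop
  refine Poly.map (F := fun (p : Inp × List ℚ) j => mkRat (p.2.getD (j + 3) 0).num
    ((p.2.getD (j + 3) 0).den * ((startV p.1).getD (nX p.1) 0).toNat))
    (h0.comp (Poly.fst Poly.id)).range ?_
  have h2 := poly_startV
  have h3 := h0.toPoly
  have h4 : Poly (fun p : (Inp × List ℚ) × ℕ => p.1.2.getD (p.2 + 3) 0) := by fun_prop
  have h5 : Poly (fun p : (Inp × List ℚ) × ℕ => ((startV p.1.1).getD (nX p.1.1) 0).toNat) := by
    fun_prop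
  exact poly_mkRat (H532.RP.Poly_num h4) (Poly.mul (H532.RP.Poly_den h4) h5)

theorem poly_dO : Poly (fun p : Inp × Outp => dO p.1 p.2) := by
  unfold dO
  have h1 : Poly (fun p : Inp × Outp => p.2.1.map (dl p.1)) := by
    refine Poly.map (F := fun (p : Inp × Outp) y => dl p.1 y) (by fun_prop) ?_
    exact poly_dl.comp (f := fun p : (Inp × Outp) × List ℚ => (p.1.1, p.2)) (by fun_prop)
  have h2 : Poly (fun p : Inp × Outp => p.2.2.map (dl p.1)) := by
    refine Poly.optMap_fp (h := fun (p : Inp × Outp) y => dl p.1 y) (by fun_prop) ?_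
    exact poly_dl.comp (f := fun p : (Inp × Outp) × List ℚ => (p.1.1, p.2)) (by fun_prop)
  exact Poly.pair h1 h2

/-- the algorithm for all linear programs -/
def alg (g : List Bool → List Bool) (w : List Bool) : Outp :=
  (unbits Inp w).elim ([], none) fun x =>
    (unbits Outp (g (bits (TrX x)))).elim ([], none) fun o => dO x o

theorem poly_alg {g : List Bool → List Bool} (hg : PolyTime g) : Poly (alg g) := by
  unfold alg
  have h1 : Poly (fun w : List Bool => unbits Inp w) := poly_unbits
  have hg' := Med.poly_of_polyTime hg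
  have h2 : Poly (fun x : Inp => unbits Outp (g (bits (TrX x)))) :=
    poly_unbits.comp (hg'.comp (Med.poly_bits.comp poly_TrX))
  refine Poly.optElim (h := fun _ x => (unbits Outp (g (bits (TrX x)))).elim ([], none)
    fun o => dO x o) h1 (Poly.const _) ?_
  refine Poly.optElim (o := fun p : List Bool × Inp => unbits Outp (g (bits (TrX p.2))))
    (h := fun p o => dO p.2 o) (h2.comp (Poly.snd Poly.id)) (Poly.const _) ?_
  exact poly_dO.comp (f := fun p : (List Bool × Inp) × Outp => (p.1.2, p.2)) (by fun_prop)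

end Pool.Agent.NPC.H72X
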