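import Pool.Agent.J4.H72.SX.Slp

/-!
The system of equations `x i + x j = x k`.
-/

set_option autoImplicit false

namespace Pool.Agent.J4.H72.SX

open Finset

/-- the last variable of the block of the form `f` -/
def En (B K f : ℕ) : ℕ := B + (f * Lb B K + K * (B + 2))

/-- number of instructions -/
def TT (B K m : ℕ) : ℕ := 2 * (m + 1) * Lb B K

/-- the triples `(i, j, k)` of the equations `x i + x j = x k` -/
def trips (B K m : ℕ) (co : ℕ → ℕ → ℕ) : List (ℕ × ℕ × ℕ) :=
  [(2, 2, 2)] ++ ((List.range (TT B K m)).map (tri B K co) ++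
    ((List.range m).map (fun i => (En B K (2 * i), B + TT B K m + i, En B K (2 * i + 1))) ++
      [(En B K (2 * m + 1), 1, En B K (2 * m))]))

/-- the coefficient of the base variable `s` in the value of the variable `p` -/
def vi (B K m : ℕ) (co : ℕ → ℕ → ℕ) (p s : ℕ) : ℤ :=
  if p < B + TT B K m then (vc B K co p s : ℤ)
  else (co (2 * (p - (B + TT B K m)) + 1) s : ℤ) - (co (2 * (p - (B + TT B K m))) s : ℤ)

variable {B K m : ℕ} {co : ℕ → ℕ → ℕ}

theorem mem_trips {t : ℕ × ℕ × ℕ} : t ∈ trips B K m co ↔ t = (2, 2, 2) ∨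
    (∃ k < TT B K m, tri B K co k = t) ∨
    (∃ i < m, (En B K (2 * i), B + TT B K m + i, En B K (2 * i + 1)) = t) ∨
    t = (En B K (2 * m + 1), 1, En B K (2 * m)) := by
  simp [trips]

theorem en_lt {f : ℕ} (hf : f < 2 * (m + 1)) : En B K f < B + TT B K m := by
  unfold En TT
  have h1 : (f + 1) * Lb B K ≤ 2 * (m + 1) * Lb B K := Nat.mul_le_mul_right _ hf
  rw [Nat.succ_mul] at h1
  have h2 : K * (B + 2) < Lb B K := by unfold Lb; omega
  omega

theorem trips_lt (hB : 3 ≤ B) {t : ℕ × ℕ × ℕ} (ht : t ∈ trips B K m co) :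
    t.1 < B + TT B K m + m ∧ t.2.1 < B + TT B K m + m ∧ t.2.2 < B + TT B K m + m := by
  rcases mem_trips.1 ht with rfl | ⟨k, hk, rfl⟩ | ⟨i, hi, rfl⟩ | rfl
  · exact ⟨by show 2 < _; omega, by show 2 < _; omega, by show 2 < _; omega⟩
  · obtain ⟨h1, h2, h3⟩ := tri_spec (K := K) (co := co) hB k
    exact ⟨by omega, by omega, by omega⟩
  · have h1 := en_lt (B := B) (K := K) (m := m) (f := 2 * i) (by omega)
    have h2 := en_lt (B := B) (K := K) (m := m) (f := 2 * i + 1) (by omega)
    exact ⟨by show En B K (2 * i) < _; omega, by show B + TT B K m + i < _; omega,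
      by show En B K (2 * i + 1) < _; omega⟩
  · have h1 := en_lt (B := B) (K := K) (m := m) (f := 2 * m) (by omega)
    have h2 := en_lt (B := B) (K := K) (m := m) (f := 2 * m + 1) (by omega)
    exact ⟨by show En B K (2 * m + 1) < _; omega, by show 1 < _; omega,
      by show En B K (2 * m) < _; omega⟩

theorem vi_base {p s : ℕ} (hp : p < B) :
    vi B K m co p s = if p = s ∧ p ≠ 2 then 1 else 0 := by
  rw [vi, if_pos (by omega), vc_base hp]
  split_ifs <;> rfl

theorem vi_en (hco : ∀ f s, co f s < 2 ^ K) {f s : ℕ} (hf : f < 2 * (m + 1)) (hs : s < B) :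
    vi B K m co (En B K f) s = co f s := by
  rw [vi, if_pos (en_lt hf), En, vc_edge hco le_rfl hs, Nat.sub_self, pow_zero, Nat.div_one]

theorem vi_slack {i s : ℕ} : vi B K m co (B + TT B K m + i) s =
    (co (2 * i + 1) s : ℤ) - (co (2 * i) s : ℤ) := by
  rw [vi, if_neg (by omega), Nat.add_sub_cancel_left]

theorem vi_tri (hB : 3 ≤ B) (hco : ∀ f s, co f s < 2 ^ K) (h2 : ∀ f, co f 2 = 0) {t s : ℕ}
    (ht : t < TT B K m) (hs : s < B) : vi B K m co (B + t) s =
      vi B K m co (tri B K co t).1 s + vi B K m co (tri B K co t).2.1 s := by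
  obtain ⟨h3, h4, h5⟩ := tri_spec (K := K) (co := co) hB t
  rw [vi, if_pos (by omega), vi, if_pos (by omega), vi, if_pos (by omega), vc_tri hB hco h2 t hs]
  push_cast
  ring

theorem sum_base {z : ℕ → ℝ} (hz : z 2 = 0) {p : ℕ} (hp : p < B) :
    ∑ s ∈ range B, (vi B K m co p s : ℝ) * z s = z p := by
  rw [Finset.sum_eq_single p]
  · rw [vi_base hp]
    by_cases h : p = 2
    · subst h; simp [hz]
    · simp [h]
  · intro s hs hsp
    rw [vi_base hp, if_neg (by omega)]
    simp
  · intro h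
    exact absurd (mem_range.2 hp) h

/-- the solution with the base values `z` -/
theorem sound (hB : 3 ≤ B) (hco : ∀ f s, co f s < 2 ^ K) (h2 : ∀ f, co f 2 = 0)
    {z : ℕ → ℝ} (hz2 : z 2 = 0)
    (hz1 : z 1 = ∑ s ∈ range B, ((co (2 * m) s : ℝ) - co (2 * m + 1) s) * z s)
    {t : ℕ × ℕ × ℕ} (ht : t ∈ trips B K m co) :
    ∑ s ∈ range B, (vi B K m co t.1 s : ℝ) * z s + ∑ s ∈ range B, (vi B K m co t.2.1 s : ℝ) * z s =
      ∑ s ∈ range B, (vi B K m co t.2.2 s : ℝ) * z s := by
  rcases mem_trips.1 ht with rfl | ⟨k, hk, rfl⟩ | ⟨i, hi, rfl⟩ | rfl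
  · rw [sum_base hz2 (by omega), hz2]; simp
  · rw [← sum_add_distrib, (tri_spec hB k).2.2]
    refine sum_congr rfl fun s hs => ?_
    rw [vi_tri hB hco h2 hk (mem_range.1 hs)]
    push_cast
    ring
  · rw [← sum_add_distrib]
    refine sum_congr rfl fun s hs => ?_
    show (vi B K m co (En B K (2 * i)) s : ℝ) * z s +
      (vi B K m co (B + TT B K m + i) s : ℝ) * z s =
      (vi B K m co (En B K (2 * i + 1)) s : ℝ) * z s
    rw [vi_en hco (by omega) (mem_range.1 hs), vi_en hco (by omega) (mem_range.1 hs), vi_slack]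
    push_cast
    ring
  · show ∑ s ∈ range B, (vi B K m co (En B K (2 * m + 1)) s : ℝ) * z s +
      ∑ s ∈ range B, (vi B K m co 1 s : ℝ) * z s =
      ∑ s ∈ range B, (vi B K m co (En B K (2 * m)) s : ℝ) * z s
    rw [sum_base (p := 1) hz2 (by omega), hz1, ← sum_add_distrib]
    refine sum_congr rfl fun s hs => ?_
    rw [vi_en hco (by omega) (mem_range.1 hs), vi_en hco (by omega) (mem_range.1 hs)]
    push_cast
    ring

/-- the solution is determined by the base values -/
theorem uniq (hB : 3 ≤ B) (hco : ∀ f s, co f s < 2 ^ K) (h2 : ∀ f, co f 2 = 0)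
    {y : ℕ → ℝ} (hy : ∀ t ∈ trips B K m co, y t.1 + y t.2.1 = y t.2.2) :
    y 2 = 0 ∧ (∀ p < B + TT B K m + m, y p = ∑ s ∈ range B, (vi B K m co p s : ℝ) * y s) ∧
      y 1 = ∑ s ∈ range B, ((co (2 * m) s : ℝ) - co (2 * m + 1) s) * y s := by
  have h0 : y 2 = 0 := by
    have := hy (2, 2, 2) (mem_trips.2 (Or.inl rfl))
    simpa using this
  have key : ∀ p < B + TT B K m, y p = ∑ s ∈ range B, (vi B K m co p s : ℝ) * y s := by
    intro p
    induction p using Nat.strong_induction_on with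
    | _ p ih =>
      intro hp
      rcases lt_or_ge p B with h | h
      · rw [sum_base h0 h]
      · obtain ⟨t, rfl⟩ : ∃ t, p = B + t := ⟨p - B, by omega⟩
        obtain ⟨h3, h4, h5⟩ := tri_spec (K := K) (co := co) hB t
        have h6 := hy (tri B K co t) (mem_trips.2 (Or.inr (Or.inl ⟨t, by omega, rfl⟩)))
        rw [h5] at h6
        rw [← h6, ih _ h3 (by omega), ih _ h4 (by omega), ← sum_add_distrib]
        refine sum_congr rfl fun s hs => ?_
        rw [vi_tri hB hco h2 (by omega) (mem_range.1 hs)]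
        push_cast
        ring
  refine ⟨h0, fun p hp => ?_, ?_⟩
  · rcases lt_or_ge p (B + TT B K m) with h | h
    · exact key p h
    · obtain ⟨i, rfl⟩ : ∃ i, p = B + TT B K m + i := ⟨p - (B + TT B K m), by omega⟩
      have h6 := hy _ (mem_trips.2 (Or.inr (Or.inr (Or.inl ⟨i, by omega, rfl⟩))))
      have h7 : y (En B K (2 * i)) + y (B + TT B K m + i) = y (En B K (2 * i + 1)) := h6
      rw [key _ (en_lt (by omega)), key _ (en_lt (by omega))] at h7
      have h8 : y (B + TT B K m + i) = ∑ s ∈ range B, (vi B K m co (En B K (2 * i + 1)) s : ℝ) * y s -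
        ∑ s ∈ range B, (vi B K m co (En B K (2 * i)) s : ℝ) * y s := by linarith
      rw [h8, ← sum_sub_distrib]
      refine sum_congr rfl fun s hs => ?_
      rw [vi_en hco (by omega) (mem_range.1 hs), vi_en hco (by omega) (mem_range.1 hs), vi_slack]
      push_cast
      ring
  · have h6 := hy _ (mem_trips.2 (Or.inr (Or.inr (Or.inr rfl))))
    have h7 : y (En B K (2 * m + 1)) + y 1 = y (En B K (2 * m)) := h6
    rw [key _ (en_lt (by omega)), key _ (en_lt (by omega))] at h7
    have h8 : y 1 = ∑ s ∈ range B, (vi B K m co (En B K (2 * m)) s : ℝ) * y s -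
      ∑ s ∈ range B, (vi B K m co (En B K (2 * m + 1)) s : ℝ) * y s := by linarith
    rw [h8, ← sum_sub_distrib]
    refine sum_congr rfl fun s hs => ?_
    rw [vi_en hco (by omega) (mem_range.1 hs), vi_en hco (by omega) (mem_range.1 hs)]
    push_cast
    ring

end Pool.Agent.J4.H72.SX
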