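import Pool.Agent.Y644.QS.Seq
import Pool.Agent.J4.H72.SX.Sys

/-!
The linear program of a list of triples.
-/

set_option autoImplicit false

namespace Pool.Agent.J4.H72.SX

open Pool.Agent.Y644.QS

/-- the row `e i + e j - e k` -/
def rowQ (N : ℕ) (t : ℕ × ℕ × ℕ) : List ℚ := (List.range N).map fun s =>
  (if s = t.1 then 1 else 0) + (if s = t.2.1 then 1 else 0) + (if s = t.2.2 then -1 else 0)

/-- the row `e 0` -/
def rowU (N : ℕ) : List ℚ := (List.range N).map fun s => if s = 0 then 1 else 0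

/-- the opposite row -/
def negQ (l : List ℚ) : List ℚ := l.map fun q => -q

/-- the inequalities -/
def sysT (N : ℕ) (T : List (ℕ × ℕ × ℕ)) : List (List ℚ × ℚ) :=
  T.flatMap (fun t => [(rowQ N t, 0), (negQ (rowQ N t), 0)]) ++
    [(rowU N, 1), (negQ (rowU N), -1)]

/-- the matrix -/
def mA (N : ℕ) (T : List (ℕ × ℕ × ℕ)) : Fin (sysT N T).length → Fin N → ℚ :=
  fun i j => ((sysT N T)[i]).1.getD j 0

/-- the right-hand side -/
def mb (N : ℕ) (T : List (ℕ × ℕ × ℕ)) : Fin (sysT N T).length → ℚ :=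
  fun i => ((sysT N T)[i]).2

/-- the equation `x i + x j = x k` -/
def eqn {n : ℕ} (i j k : Fin n) : Fin n → ℚ := Pi.single i 1 + Pi.single j 1 - Pi.single k 1

/-- The elementary linear programs: maximise `x 1` subject to `x 0 = 1`, `x ≥ 0` and equations
`x i + x j = x k`, each one as two inequalities, from a vertex with `x 1 = 0`. -/
structure Elementary {m n : ℕ} (A : Fin m → Fin (n + 2) → ℚ) (b : Fin m → ℚ)
    (c v : Fin (n + 2) → ℚ) : Prop where
  row : ∀ r, (b r = 0 ∧ ∃ i j k, A r = eqn i j k ∨ A r = -eqn i j k) ∨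
    (b r = 1 ∧ A r = Pi.single 0 1) ∨ (b r = -1 ∧ A r = -Pi.single 0 1)
  neg : ∀ r, ∃ r', A r' = -A r ∧ b r' = -b r
  one : ∃ r, b r = 1 ∧ A r = Pi.single 0 1
  obj : c = Pi.single 1 1
  start : v 1 = 0

theorem length_rowQ (N : ℕ) (t : ℕ × ℕ × ℕ) : (rowQ N t).length = N := by simp [rowQ]
theorem length_rowU (N : ℕ) : (rowU N).length = N := by simp [rowU]
theorem length_negQ (l : List ℚ) : (negQ l).length = l.length := by simp [negQ]

theorem getD_map_range {α : Type} (N : ℕ) (f : ℕ → α) (d : α) {j : ℕ} (hj : j < N) :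
    ((List.range N).map f).getD j d = f j := by
  rw [List.getD_eq_getElem _ _ (by simpa using hj)]
  simp

theorem getD_rowQ {N : ℕ} {t : ℕ × ℕ × ℕ} {j : ℕ} (hj : j < N) : (rowQ N t).getD j 0 =
    (if j = t.1 then 1 else 0) + (if j = t.2.1 then 1 else 0) + (if j = t.2.2 then -1 else 0) :=
  getD_map_range N _ 0 hj

theorem getD_rowU {N : ℕ} {j : ℕ} (hj : j < N) :
    (rowU N).getD j 0 = if j = 0 then 1 else 0 :=
  getD_map_range N _ 0 hj

theorem getD_negQ (l : List ℚ) (j : ℕ) : (negQ l).getD j 0 = - l.getD j 0 := by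
  unfold negQ
  rw [List.getD_eq_getElem?_getD, List.getD_eq_getElem?_getD, List.getElem?_map]
  cases l[j]? <;> simp

theorem mem_sysT {N : ℕ} {T : List (ℕ × ℕ × ℕ)} {r : List ℚ × ℚ} : r ∈ sysT N T ↔
    (∃ t ∈ T, r = (rowQ N t, 0) ∨ r = (negQ (rowQ N t), 0)) ∨
      r = (rowU N, 1) ∨ r = (negQ (rowU N), -1) := by
  simp [sysT]

theorem length_sysT {N : ℕ} {T : List (ℕ × ℕ × ℕ)} {r : List ℚ × ℚ} (hr : r ∈ sysT N T) :
    r.1.length = N := by
  rcases mem_sysT.1 hr with ⟨t, -, rfl | rfl⟩ | rfl | rfl <;>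
  simp [length_negQ, length_rowQ, length_rowU]

theorem ofFn_getD {l : List ℚ} {N : ℕ} (h : l.length = N) :
    List.ofFn (fun j : Fin N => l.getD j 0) = l := by
  refine List.ext_getElem (by simp [h]) fun i h1 h2 => ?_
  rw [List.getElem_ofFn, List.getD_eq_getElem _ _ h2]

theorem ofFn_get {α β : Type} (l : List α) (f : α → β) :
    List.ofFn (fun i : Fin l.length => f l[i]) = l.map f := by
  refine List.ext_getElem (by simp) fun i h1 h2 => ?_
  rw [List.getElem_ofFn, List.getElem_map]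
  rfl

theorem ofFn_mA (N : ℕ) (T : List (ℕ × ℕ × ℕ)) :
    List.ofFn (fun i => List.ofFn (mA N T i)) = (sysT N T).map Prod.fst := by
  have h : ∀ i : Fin (sysT N T).length, List.ofFn (mA N T i) = ((sysT N T)[i]).1 := fun i =>
    ofFn_getD (length_sysT (List.getElem_mem _))
  simp only [h]
  exact ofFn_get (sysT N T) Prod.fst

theorem ofFn_mb (N : ℕ) (T : List (ℕ × ℕ × ℕ)) :
    List.ofFn (mb N T) = (sysT N T).map Prod.snd := ofFn_get (sysT N T) Prod.snd

/-- extension by zero -/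
noncomputable def ext {N : ℕ} (y : Fin N → ℝ) (p : ℕ) : ℝ := if h : p < N then y ⟨p, h⟩ else 0

theorem ext_val {N : ℕ} (y : Fin N → ℝ) (p : Fin N) : ext y p = y p := by
  rw [ext, dif_pos p.2]

theorem sum_delta {N : ℕ} (y : Fin N → ℝ) (p : ℕ) (a : ℝ) :
    ∑ j : Fin N, (if (j : ℕ) = p then a else 0) * y j = a * ext y p := by
  by_cases h : p < N
  · rw [Finset.sum_eq_single (⟨p, h⟩ : Fin N)]
    · simp [ext, h]
    · intro j _ hj
      rw [if_neg (fun h' => hj (Fin.ext h')), zero_mul]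
    · simp
  · rw [ext, dif_neg h, mul_zero]
    refine Finset.sum_eq_zero fun j _ => ?_
    rw [if_neg (by omega), zero_mul]

theorem dot_rowQ {N : ℕ} (t : ℕ × ℕ × ℕ) (y : Fin N → ℝ) :
    ∑ j : Fin N, (((rowQ N t).getD j 0 : ℚ) : ℝ) * y j = ext y t.1 + ext y t.2.1 - ext y t.2.2 := by
  have h : ∀ j : Fin N, (((rowQ N t).getD j 0 : ℚ) : ℝ) * y j =
      (if (j : ℕ) = t.1 then (1 : ℝ) else 0) * y j + (if (j : ℕ) = t.2.1 then (1 : ℝ) else 0) * y j +
        (if (j : ℕ) = t.2.2 then (-1 : ℝ) else 0) * y j := by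
    intro j
    rw [getD_rowQ j.2]
    split_ifs <;> push_cast <;> ring
  simp only [h, Finset.sum_add_distrib, sum_delta]
  ring

theorem dot_rowU {N : ℕ} (y : Fin N → ℝ) :
    ∑ j : Fin N, (((rowU N).getD j 0 : ℚ) : ℝ) * y j = ext y 0 := by
  have h : ∀ j : Fin N, (((rowU N).getD j 0 : ℚ) : ℝ) * y j =
      (if (j : ℕ) = 0 then (1 : ℝ) else 0) * y j := by
    intro j
    rw [getD_rowU j.2]
    split_ifs <;> push_cast <;> ring
  simp only [h, sum_delta, one_mul]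

theorem dot_negQ {N : ℕ} (l : List ℚ) (y : Fin N → ℝ) :
    ∑ j : Fin N, (((negQ l).getD j 0 : ℚ) : ℝ) * y j =
      -∑ j : Fin N, ((l.getD j 0 : ℚ) : ℝ) * y j := by
  rw [← Finset.sum_neg_distrib]
  refine Finset.sum_congr rfl fun j _ => ?_
  rw [getD_negQ]
  push_cast
  ring

/-- the polyhedron of the triples -/
theorem mem_poly {N : ℕ} {T : List (ℕ × ℕ × ℕ)} {y : Fin N → ℝ} :
    y ∈ polyhedron (mA N T) (mb N T) ↔ ext y 0 = 1 ∧
      (∀ t ∈ T, ext y t.1 + ext y t.2.1 = ext y t.2.2) ∧ ∀ p, 0 ≤ y p := by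
  have key : (∀ i : Fin (sysT N T).length, ∑ j, (mA N T i j : ℝ) * y j ≤ mb N T i) ↔
      ∀ r ∈ sysT N T, ∑ j : Fin N, ((r.1.getD j 0 : ℚ) : ℝ) * y j ≤ (r.2 : ℚ) := by
    constructor
    · intro h r hr
      obtain ⟨i, hi, rfl⟩ := List.getElem_of_mem hr
      exact h ⟨i, hi⟩
    · intro h i
      exact h _ (List.getElem_mem _)
  unfold polyhedron
  rw [Set.mem_ofPred_eq, key]
  constructor
  · rintro ⟨h, h0⟩
    refine ⟨?_, fun t ht => ?_, h0⟩
    · have h1 := h _ (mem_sysT.2 (Or.inr (Or.inl rfl)))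
      have h2 := h _ (mem_sysT.2 (Or.inr (Or.inr rfl)))
      simp only [dot_negQ, dot_rowU] at h1 h2
      push_cast at h1 h2
      linarith
    · have h1 := h _ (mem_sysT.2 (Or.inl ⟨t, ht, Or.inl rfl⟩))
      have h2 := h _ (mem_sysT.2 (Or.inl ⟨t, ht, Or.inr rfl⟩))
      simp only [dot_negQ, dot_rowQ] at h1 h2
      push_cast at h1 h2
      linarith
  · rintro ⟨h, h', h0⟩
    refine ⟨fun r hr => ?_, h0⟩
    rcases mem_sysT.1 hr with ⟨t, ht, rfl | rfl⟩ | rfl | rfl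
    · simp only [dot_rowQ]
      push_cast
      have := h' t ht
      linarith
    · simp only [dot_negQ, dot_rowQ]
      push_cast
      have := h' t ht
      linarith
    · simp only [dot_rowU]
      push_cast
      linarith
    · simp only [dot_negQ, dot_rowU]
      push_cast
      linarith

theorem elementary {n : ℕ} {T : List (ℕ × ℕ × ℕ)}
    (hT : ∀ t ∈ T, t.1 < n + 2 ∧ t.2.1 < n + 2 ∧ t.2.2 < n + 2) {v : Fin (n + 2) → ℚ}
    (hv : v 1 = 0) : Elementary (mA (n + 2) T) (mb (n + 2) T) (Pi.single 1 1) v := by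
  have e1 : ∀ t ∈ T, ∃ i j k : Fin (n + 2), (fun s : Fin (n + 2) =>
      (rowQ (n + 2) t).getD s 0) = eqn i j k := by
    intro t ht
    obtain ⟨h1, h2, h3⟩ := hT t ht
    refine ⟨⟨t.1, h1⟩, ⟨t.2.1, h2⟩, ⟨t.2.2, h3⟩, funext fun s => ?_⟩
    rw [getD_rowQ s.2]
    simp only [eqn, Pi.sub_apply, Pi.add_apply, Pi.single_apply, Fin.ext_iff]
    split_ifs <;> norm_num
  have e2 : (fun s : Fin (n + 2) => (rowU (n + 2)).getD s 0) = Pi.single 0 1 := by
    funext s
    rw [getD_rowU s.2]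
    simp only [Pi.single_apply, Fin.ext_iff, Fin.val_zero]
  have e3 : ∀ l : List ℚ, (fun s : Fin (n + 2) => (negQ l).getD s 0) =
      -(fun s : Fin (n + 2) => l.getD s 0) := fun l => funext fun s => getD_negQ l s
  have e4 : ∀ l : List ℚ, (fun s : Fin (n + 2) => l.getD s 0) =
      -(fun s : Fin (n + 2) => (negQ l).getD s 0) := fun l => by rw [e3, neg_neg]
  have hA : ∀ r, mA (n + 2) T r = fun s : Fin (n + 2) => ((sysT (n + 2) T)[r]).1.getD s 0 :=
    fun r => rfl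
  refine ⟨fun r => ?_, fun r => ?_, ?_, rfl, hv⟩
  · rw [hA]
    unfold mb
    rcases mem_sysT.1 (List.getElem_mem (l := sysT (n + 2) T) r.2) with
      ⟨t, ht, h | h⟩ | h | h
    all_goals
      have h' : (sysT (n + 2) T)[r] = _ := h
      rw [h']
    · obtain ⟨i, j, k, h5⟩ := e1 t ht
      exact Or.inl ⟨rfl, i, j, k, Or.inl h5⟩
    · obtain ⟨i, j, k, h5⟩ := e1 t ht
      exact Or.inl ⟨rfl, i, j, k, Or.inr (by rw [← h5]; exact e3 _)⟩
    · exact Or.inr (Or.inl ⟨rfl, e2⟩)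
    · exact Or.inr (Or.inr ⟨rfl, by rw [← e2]; exact e3 _⟩)
  · have key : ∀ q ∈ sysT (n + 2) T, ∃ q' ∈ sysT (n + 2) T,
        (fun s : Fin (n + 2) => q'.1.getD s 0) = -(fun s : Fin (n + 2) => q.1.getD s 0) ∧
          q'.2 = -q.2 := by
      intro q hq
      rcases mem_sysT.1 hq with ⟨t, ht, rfl | rfl⟩ | rfl | rfl
      · exact ⟨_, mem_sysT.2 (Or.inl ⟨t, ht, Or.inr rfl⟩), e3 _, by simp⟩
      · exact ⟨_, mem_sysT.2 (Or.inl ⟨t, ht, Or.inl rfl⟩), e4 _, by simp⟩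
      · exact ⟨_, mem_sysT.2 (Or.inr (Or.inr rfl)), e3 _, by simp⟩
      · exact ⟨_, mem_sysT.2 (Or.inr (Or.inl rfl)), e4 _, by simp⟩
    obtain ⟨q', hq', h1, h2⟩ := key _ (List.getElem_mem (l := sysT (n + 2) T) r.2)
    obtain ⟨i, hi, rfl⟩ := List.getElem_of_mem hq'
    exact ⟨⟨i, hi⟩, h1, h2⟩
  · obtain ⟨i, hi, h1⟩ := List.getElem_of_mem
      (show ((rowU (n + 2), 1) : List ℚ × ℚ) ∈ sysT (n + 2) T from
        mem_sysT.2 (Or.inr (Or.inl rfl)))
    refine ⟨⟨i, hi⟩, ?_, ?_⟩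
    · show ((sysT (n + 2) T)[i]).2 = 1
      rw [h1]
    · rw [← e2]
      show (fun s : Fin (n + 2) => ((sysT (n + 2) T)[i]).1.getD s 0) = _
      rw [h1]

end Pool.Agent.J4.H72.SX
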