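import Pool.Agent.Y644.QS.Final
import Pool.Agent.J4.H72.SX.Path
import Pool.Agent.J4.H72.SX.Tri

/-!
The reduction.
-/

set_option autoImplicit false

namespace Pool.Agent.J4.H72.SX

open Pool.Agent.Y644.QS Pool.Agent.H687R2.LLL Finset

/-- number of variables -/
def nX (x : Inp) : ℕ := x.2.2.1.length

/-- number of constraints -/
def mX (x : Inp) : ℕ := (rowsA x).length

/-- the integer forms: the constraints and the objective function -/
def czT (x : Inp) : List (List ℤ) :=
  (rowsA x).map (fun r => [r.getD (nX x) 0 * (startV x).getD (nX x) 0, 0, 0] ++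
    (List.range (nX x)).map (fun j => r.getD j 0)) ++
  [[-(((List.range (nX x)).map fun j => (crow x).getD j 0 * (startV x).getD j 0).sum), 0, 0] ++
    (List.range (nX x)).map (fun j => (crow x).getD j 0)]

/-- the coefficients -/
def czX (x : Inp) (i s : ℕ) : ℤ := ((czT x).getD i []).getD s 0

/-- positive and negative parts -/
def coX (x : Inp) (f s : ℕ) : ℕ :=
  if f % 2 = 0 then (czX x (f / 2) s).toNat else (-(czX x (f / 2) s)).toNat

/-- number of bits -/
def KX (x : Inp) : ℕ := Pool.Agent.NPC.sz (czT x)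

/-- number of base variables -/
def BX (x : Inp) : ℕ := nX x + 3

/-- number of variables, minus two -/
def NX (x : Inp) : ℕ := nX x + 1 + TT (BX x) (KX x) (mX x) + mX x

/-- the triples -/
def tX (x : Inp) : List (ℕ × ℕ × ℕ) := trips (BX x) (KX x) (mX x) (coX x)

/-- the base values of the start vertex -/
def zX (x : Inp) (s : ℕ) : ℤ :=
  if s = 0 then 1 else if s < 3 then 0 else (startV x).getD (s - 3) 0

/-- the start vertex -/
def vX (x : Inp) (p : ℕ) : ℚ :=
  mkRat (((List.range (BX x)).map fun s =>
    vi (BX x) (KX x) (mX x) (coX x) p s * zX x s).sum) 1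

/-- the transformed linear program -/
def TrX (x : Inp) : Inp :=
  ((sysT (NX x + 2) (tX x)).map Prod.fst, (sysT (NX x + 2) (tX x)).map Prod.snd,
    (List.range (NX x + 2)).map (fun s => if s = 1 then 1 else 0),
    (List.range (NX x + 2)).map (vX x))

theorem czX_lt (x : Inp) (i s : ℕ) : (czX x i s).natAbs < 2 ^ KX x := by
  unfold czX KX
  rcases lt_or_ge i (czT x).length with hi | hi
  · rw [List.getD_eq_getElem _ _ hi]
    have h1 := Pool.Agent.NPC.sz_le_of_mem (List.getElem_mem hi)
    have h2 := nrm_lt ((czT x)[i])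
    have h3 : (((czT x)[i]).getD s 0).natAbs ≤ nrm ((czT x)[i]) := by
      rcases lt_or_ge s ((czT x)[i]).length with hs | hs
      · rw [List.getD_eq_getElem _ _ hs]
        exact List.single_le_sum (fun _ _ => Nat.zero_le _) _
          (List.mem_map.2 ⟨_, List.getElem_mem hs, rfl⟩)
      · rw [List.getD_eq_default _ _ hs]
        simp
    exact lt_of_le_of_lt h3 (h2.trans (Nat.pow_lt_pow_right (by norm_num) h1))
  · rw [List.getD_eq_default _ _ hi]
    simp

theorem coX_lt (x : Inp) (f s : ℕ) : coX x f s < 2 ^ KX x := by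
  have h := czX_lt x (f / 2) s
  unfold coX
  split_ifs <;> omega

theorem coX_even (x : Inp) (i s : ℕ) : coX x (2 * i) s = (czX x i s).toNat := by
  rw [coX, if_pos (by omega), Nat.mul_div_cancel_left _ (by omega)]

theorem coX_odd (x : Inp) (i s : ℕ) : coX x (2 * i + 1) s = (-(czX x i s)).toNat := by
  rw [coX, if_neg (by omega), show (2 * i + 1) / 2 = i by omega]

theorem coX_sub (x : Inp) (i s : ℕ) :
    ((coX x (2 * i) s : ℝ) - coX x (2 * i + 1) s) = (czX x i s : ℝ) := by
  rw [coX_even, coX_odd]
  have h : (((czX x i s).toNat : ℤ) - ((-(czX x i s)).toNat : ℤ)) = czX x i s := by omega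
  exact_mod_cast congrArg (Int.cast : ℤ → ℝ) h

section

variable {m n : ℕ} (A : Fin m → Fin n → ℚ) (b : Fin m → ℚ) (c v : Fin n → ℚ)

theorem nX_inp : nX (inp A b c v) = n := by simp [nX, inp]

theorem mX_inp : mX (inp A b c v) = m := by simp [mX, inp, rowsA]

theorem length_czT : (czT (inp A b c v)).length = m + 1 := by
  have := mX_inp A b c v
  unfold mX at this
  simp [czT, this]

theorem rowsA_getElem {i : ℕ} (hi : i < m) (h : i < (rowsA (inp A b c v)).length) :
    (rowsA (inp A b c v))[i] = zrow (List.ofFn (A ⟨i, hi⟩) ++ [-b ⟨i, hi⟩]) := by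
  simp [rowsA, inp]

/-- the rows of the table -/
theorem czX_row {i : ℕ} (hi : i < m) (s : ℕ) : czX (inp A b c v) i s =
    if s = 0 then (zrow (List.ofFn (A ⟨i, hi⟩) ++ [-b ⟨i, hi⟩])).getD n 0 *
      (startV (inp A b c v)).getD n 0
    else if s < 3 then 0 else if s < n + 3 then
      (zrow (List.ofFn (A ⟨i, hi⟩) ++ [-b ⟨i, hi⟩])).getD (s - 3) 0 else 0 := by
  have hl : i < (rowsA (inp A b c v)).length := by
    have := mX_inp A b c v
    unfold mX at this
    omega
  have e : (czT (inp A b c v)).getD i [] =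
      [(zrow (List.ofFn (A ⟨i, hi⟩) ++ [-b ⟨i, hi⟩])).getD n 0 *
        (startV (inp A b c v)).getD n 0, 0, 0] ++ (List.range n).map (fun j =>
          (zrow (List.ofFn (A ⟨i, hi⟩) ++ [-b ⟨i, hi⟩])).getD j 0) := by
    unfold czT
    rw [nX_inp, List.getD_eq_getElem?_getD, List.getElem?_append_left (by simpa using hl),
      List.getElem?_map, List.getElem?_eq_getElem hl, Option.map_some, Option.getD_some,
      rowsA_getElem A b c v hi hl]
  unfold czX
  rw [e]
  rcases s with _ | _ | _ | s
  · simp
  · simp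
  · simp
  · rw [if_neg (by omega), if_neg (by omega)]
    simp only [List.cons_append, List.nil_append, List.getD_cons_succ]
    split_ifs with h
    · rw [getD_map_range _ _ _ (by omega)]
      rfl
    · rw [List.getD_eq_default _ _ (by simp; omega)]

/-- the last row of the table -/
theorem czX_last (s : ℕ) : czX (inp A b c v) m s =
    if s = 0 then -(((List.range n).map fun j => (crow (inp A b c v)).getD j 0 *
      (startV (inp A b c v)).getD j 0).sum)
    else if s < 3 then 0 else if s < n + 3 then (crow (inp A b c v)).getD (s - 3) 0 else 0 := by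
  have hl : (rowsA (inp A b c v)).length = m := mX_inp A b c v
  have e : (czT (inp A b c v)).getD m [] =
      [-(((List.range n).map fun j => (crow (inp A b c v)).getD j 0 *
        (startV (inp A b c v)).getD j 0).sum), 0, 0] ++ (List.range n).map (fun j =>
          (crow (inp A b c v)).getD j 0) := by
    unfold czT
    rw [nX_inp, List.getD_eq_getElem?_getD,
      List.getElem?_append_right (by simp only [List.length_map]; omega), List.length_map, hl,
      Nat.sub_self]
    rfl
  unfold czX
  rw [e]
  rcases s with _ | _ | _ | s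
  · simp
  · simp
  · simp
  · rw [if_neg (by omega), if_neg (by omega)]
    simp only [List.cons_append, List.nil_append, List.getD_cons_succ]
    split_ifs with h
    · rw [getD_map_range _ _ _ (by omega)]
      rfl
    · rw [List.getD_eq_default _ _ (by simp; omega)]

theorem czX_two {i s : ℕ} (hs : s = 1 ∨ s = 2) : czX (inp A b c v) i s = 0 := by
  rcases lt_trichotomy i m with h | h | h
  · rw [czX_row A b c v h, if_neg (by omega), if_pos (by omega)]
  · subst h
    rw [czX_last, if_neg (by omega), if_pos (by omega)]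
  · unfold czX
    rw [List.getD_eq_default (czT _) _ (by rw [length_czT]; omega)]
    simp

/-- the common denominator of the start vertex -/
def dX : ℕ := zden (List.ofFn v ++ [1])

theorem dX_pos : 0 < dX v := zden_pos _

theorem startV_last : (startV (inp A b c v)).getD n 0 = (dX v : ℤ) := by
  have h := getD_zrow (List.ofFn v ++ [1]) n
  rw [getD_ofFn_append_last, mul_one] at h
  exact_mod_cast h

theorem startV_get (j : Fin n) :
    (((startV (inp A b c v)).getD j 0 : ℤ) : ℝ) = (dX v : ℝ) * (v j : ℝ) := by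
  have h := getD_zrow' (List.ofFn v ++ [1]) j
  rw [getD_ofFn_append] at h
  exact h

theorem crow_get (j : Fin n) : (((crow (inp A b c v)).getD j 0 : ℤ) : ℝ) =
    (zden (List.ofFn c ++ [0]) : ℝ) * (c j : ℝ) := by
  have h := getD_zrow' (List.ofFn c ++ [0]) j
  rw [getD_ofFn_append] at h
  exact h

theorem sum_three (f : ℕ → ℝ) (n : ℕ) (h1 : f 1 = 0) (h2 : f 2 = 0) :
    ∑ s ∈ range (n + 3), f s = f 0 + ∑ j : Fin n, f (j + 3) := by
  rw [Finset.sum_range_succ', Finset.sum_range_succ', Finset.sum_range_succ']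
  rw [Finset.sum_range (fun k => f (k + 1 + 1 + 1))]
  have e : ∀ k : ℕ, f (k + 1 + 1 + 1) = f (k + 3) := fun k => rfl
  simp only [e]
  have e1 : f (0 + 1 + 1) = 0 := h2
  have e2 : f (0 + 1) = 0 := h1
  rw [e1, e2]
  ring

/-- the value of the form of a constraint -/
theorem form_row {i : ℕ} (hi : i < m) (z : ℕ → ℝ) :
    ∑ s ∈ range (n + 3), (czX (inp A b c v) i s : ℝ) * z s =
      (zden (List.ofFn (A ⟨i, hi⟩) ++ [-b ⟨i, hi⟩]) : ℝ) *
        (∑ j : Fin n, (A ⟨i, hi⟩ j : ℝ) * z (j + 3) - (b ⟨i, hi⟩ : ℝ) * (dX v * z 0)) := by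
  rw [sum_three _ _ (by rw [czX_two A b c v (Or.inl rfl)]; simp)
    (by rw [czX_two A b c v (Or.inr rfl)]; simp)]
  rw [czX_row A b c v hi, if_pos rfl, startV_last]
  push_cast
  rw [getD_zrow', getD_ofFn_append_last, mul_sub, Finset.mul_sum]
  have h : ∀ j : Fin n, (czX (inp A b c v) i (j + 3) : ℝ) * z (j + 3) =
      (zden (List.ofFn (A ⟨i, hi⟩) ++ [-b ⟨i, hi⟩]) : ℝ) * ((A ⟨i, hi⟩ j : ℝ) * z (j + 3)) := by
    intro j
    rw [czX_row A b c v hi, if_neg (by omega), if_neg (by omega), if_pos (by omega),
      Nat.add_sub_cancel, getD_zrow', getD_ofFn_append]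
    ring
  simp only [h]
  push_cast
  ring

/-- the value of the objective form -/
theorem form_last (z : ℕ → ℝ) :
    ∑ s ∈ range (n + 3), (czX (inp A b c v) m s : ℝ) * z s =
      (zden (List.ofFn c ++ [0]) : ℝ) *
        (∑ j : Fin n, (c j : ℝ) * z (j + 3) - obj c (re v) * (dX v * z 0)) := by
  rw [sum_three _ _ (by rw [czX_two A b c v (Or.inl rfl)]; simp)
    (by rw [czX_two A b c v (Or.inr rfl)]; simp)]
  have h : ∀ j : Fin n, (czX (inp A b c v) m (j + 3) : ℝ) * z (j + 3) =
      (zden (List.ofFn c ++ [0]) : ℝ) * ((c j : ℝ) * z (j + 3)) := by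
    intro j
    rw [czX_last, if_neg (by omega), if_neg (by omega), if_pos (by omega),
      Nat.add_sub_cancel, crow_get]
    ring
  simp only [h]
  rw [czX_last, if_pos rfl]
  have h2 : ((((List.range n).map fun j => (crow (inp A b c v)).getD j 0 *
      (startV (inp A b c v)).getD j 0).sum : ℤ) : ℝ) =
      (zden (List.ofFn c ++ [0]) : ℝ) * (dX v * obj c (re v)) := by
    rw [show ((List.range n).map fun j => (crow (inp A b c v)).getD j 0 *
      (startV (inp A b c v)).getD j 0).sum = ∑ j ∈ range n, (crow (inp A b c v)).getD j 0 *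
      (startV (inp A b c v)).getD j 0 from rfl]
    rw [Finset.sum_range]
    push_cast
    unfold obj
    rw [Finset.mul_sum, Finset.mul_sum]
    refine Finset.sum_congr rfl fun j _ => ?_
    rw [crow_get, startV_get]
    unfold re
    ring
  push_cast at h2 ⊢
  rw [h2, mul_sub, Finset.mul_sum]
  ring

end

end Pool.Agent.J4.H72.SX
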