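import Mathlib

/-!
A straight-line program of additions which evaluates linear forms with natural coefficients.

The base variables are `0, …, B - 1`, variable `2` is zero. The blocks of `Lb` further variables
evaluate the forms `co f` by Horner's rule: `K` rounds of `B + 2` instructions, a round copies the
current value, doubles it, and adds the base variables whose coefficient has the bit of the round.
-/

set_option autoImplicit false

namespace Pool.Agent.J4.H72.SX

/-- length of a block -/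
def Lb (B K : ℕ) : ℕ := 1 + K * (B + 2)

/-- the instruction computing the variable `B + t` -/
def tri (B K : ℕ) (co : ℕ → ℕ → ℕ) (t : ℕ) : ℕ × ℕ × ℕ :=
  if t % Lb B K = 0 then (2, 2, B + t)
  else if (t % Lb B K - 1) % (B + 2) = 0 then (B + t - 1, 2, B + t)
  else if (t % Lb B K - 1) % (B + 2) = 1 then (B + t - 1, B + t - 2, B + t)
  else if co (t / Lb B K) ((t % Lb B K - 1) % (B + 2) - 2) /
      2 ^ (K - 1 - (t % Lb B K - 1) / (B + 2)) % 2 = 1
    then (B + t - 1, (t % Lb B K - 1) % (B + 2) - 2, B + t)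
  else (B + t - 1, 2, B + t)

/-- the coefficient of the base variable `s` in the value of the variable `p` -/
def vc (B K : ℕ) (co : ℕ → ℕ → ℕ) (p s : ℕ) : ℕ :=
  if p < B then (if p = s ∧ p ≠ 2 then 1 else 0)
  else if (p - B) % Lb B K = 0 then 0
  else if ((p - B) % Lb B K - 1) % (B + 2) = 0 then
    co ((p - B) / Lb B K) s / 2 ^ (K - ((p - B) % Lb B K - 1) / (B + 2))
  else 2 * (co ((p - B) / Lb B K) s / 2 ^ (K - ((p - B) % Lb B K - 1) / (B + 2))) +
    if s < ((p - B) % Lb B K - 1) % (B + 2) - 1 then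
      co ((p - B) / Lb B K) s / 2 ^ (K - 1 - ((p - B) % Lb B K - 1) / (B + 2)) % 2 else 0

variable {B K : ℕ} {co : ℕ → ℕ → ℕ}

theorem lb_div {f r : ℕ} (hr : r < Lb B K) : (f * Lb B K + r) / Lb B K = f := by
  rw [Nat.add_comm, Nat.add_mul_div_right _ _ (by omega), Nat.div_eq_of_lt hr, Nat.zero_add]

theorem lb_mod {f r : ℕ} (hr : r < Lb B K) : (f * Lb B K + r) % Lb B K = r := by
  rw [Nat.mul_add_mod', Nat.mod_eq_of_lt hr]

theorem rd_div {k e : ℕ} (he : e < B + 2) : (k * (B + 2) + e) / (B + 2) = k := by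
  rw [Nat.add_comm, Nat.add_mul_div_right _ _ (by omega), Nat.div_eq_of_lt he, Nat.zero_add]

theorem rd_mod {k e : ℕ} (he : e < B + 2) : (k * (B + 2) + e) % (B + 2) = e := by
  rw [Nat.mul_add_mod', Nat.mod_eq_of_lt he]

theorem pos_lt {k e : ℕ} (hk : k < K) (he : e < B + 2) : 1 + (k * (B + 2) + e) < Lb B K := by
  unfold Lb
  have : (k + 1) * (B + 2) ≤ K * (B + 2) := Nat.mul_le_mul_right _ hk
  rw [Nat.succ_mul] at this
  omega

theorem vc_base {p s : ℕ} (hp : p < B) : vc B K co p s = if p = s ∧ p ≠ 2 then 1 else 0 := by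
  rw [vc, if_pos hp]

theorem vc_zero {f s : ℕ} : vc B K co (B + f * Lb B K) s = 0 := by
  have h := lb_mod (B := B) (K := K) (f := f) (r := 0) (by unfold Lb; omega)
  rw [Nat.add_zero] at h
  rw [vc, if_neg (by omega), Nat.add_sub_cancel_left, if_pos h]

theorem vc_pos {f k e s : ℕ} (hk : k < K) (he : e < B + 2) :
    vc B K co (B + (f * Lb B K + (1 + (k * (B + 2) + e)))) s =
      if e = 0 then co f s / 2 ^ (K - k) else 2 * (co f s / 2 ^ (K - k)) +
        if s < e - 1 then co f s / 2 ^ (K - 1 - k) % 2 else 0 := by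
  have h := pos_lt (B := B) hk he
  rw [vc, if_neg (by omega), Nat.add_sub_cancel_left, lb_div h, lb_mod h, if_neg (by omega),
    Nat.add_sub_cancel_left, rd_div he, rd_mod he]

theorem tri_zero {f : ℕ} : tri B K co (f * Lb B K) = (2, 2, B + f * Lb B K) := by
  have h := lb_mod (B := B) (K := K) (f := f) (r := 0) (by unfold Lb; omega)
  rw [Nat.add_zero] at h
  rw [tri, if_pos h]

theorem tri_pos {f k e : ℕ} (hk : k < K) (he : e < B + 2) :
    tri B K co (f * Lb B K + (1 + (k * (B + 2) + e))) =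
      if e = 0 then (B + (f * Lb B K + (1 + (k * (B + 2) + e))) - 1, 2,
        B + (f * Lb B K + (1 + (k * (B + 2) + e))))
      else if e = 1 then (B + (f * Lb B K + (1 + (k * (B + 2) + e))) - 1,
        B + (f * Lb B K + (1 + (k * (B + 2) + e))) - 2,
        B + (f * Lb B K + (1 + (k * (B + 2) + e))))
      else if co f (e - 2) / 2 ^ (K - 1 - k) % 2 = 1
        then (B + (f * Lb B K + (1 + (k * (B + 2) + e))) - 1, e - 2,
          B + (f * Lb B K + (1 + (k * (B + 2) + e))))
      else (B + (f * Lb B K + (1 + (k * (B + 2) + e))) - 1, 2,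
        B + (f * Lb B K + (1 + (k * (B + 2) + e)))) := by
  have h := pos_lt (B := B) hk he
  rw [tri, lb_div h, lb_mod h, if_neg (by omega), Nat.add_sub_cancel_left, rd_div he, rd_mod he]

/-- the value after `k` rounds -/
theorem vc_edge (hco : ∀ f s, co f s < 2 ^ K) {f k s : ℕ} (hk : k ≤ K) (hs : s < B) :
    vc B K co (B + (f * Lb B K + k * (B + 2))) s = co f s / 2 ^ (K - k) := by
  rcases Nat.eq_zero_or_pos k with rfl | hpos
  · rw [Nat.zero_mul, Nat.add_zero, vc_zero, Nat.sub_zero, Nat.div_eq_of_lt (hco f s)]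
  · obtain ⟨j, rfl⟩ : ∃ j, k = j + 1 := ⟨k - 1, by omega⟩
    have h1 : B + (f * Lb B K + (j + 1) * (B + 2)) =
        B + (f * Lb B K + (1 + (j * (B + 2) + (B + 1)))) := by ring
    rw [h1, vc_pos (by omega) (by omega), if_neg (by omega), if_pos (by omega)]
    have h2 : K - j = (K - (j + 1)) + 1 := by omega
    have h3 : K - 1 - j = K - (j + 1) := by omega
    rw [h3, h2, pow_succ, ← Nat.div_div_eq_div_mul]
    omega

theorem t_cases (B K t : ℕ) : (∃ f, t = f * Lb B K) ∨
    ∃ f k e, k < K ∧ e < B + 2 ∧ t = f * Lb B K + (1 + (k * (B + 2) + e)) := by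
  have h0 : 0 < Lb B K := by unfold Lb; omega
  have h1 := Nat.div_add_mod' t (Lb B K)
  have h2 := Nat.mod_lt t h0
  rcases Nat.eq_zero_or_pos (t % Lb B K) with h | h
  · exact Or.inl ⟨t / Lb B K, by omega⟩
  · right
    have h3 := Nat.div_add_mod' (t % Lb B K - 1) (B + 2)
    have h4 := Nat.mod_lt (t % Lb B K - 1) (show 0 < B + 2 by omega)
    refine ⟨t / Lb B K, (t % Lb B K - 1) / (B + 2), (t % Lb B K - 1) % (B + 2), ?_, h4, by omega⟩
    rw [Nat.div_lt_iff_lt_mul (by omega)]
    unfold Lb at h2 h ⊢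
    omega

theorem tri_spec (hB : 3 ≤ B) (t : ℕ) : (tri B K co t).1 < B + t ∧ (tri B K co t).2.1 < B + t ∧
    (tri B K co t).2.2 = B + t := by
  rcases t_cases B K t with ⟨f, rfl⟩ | ⟨f, k, e, hk, he, rfl⟩
  · rw [tri_zero]
    exact ⟨by show 2 < _; omega, by show 2 < _; omega, rfl⟩
  · rw [tri_pos hk he]
    split_ifs with h1 h2 h3
    · exact ⟨by show _ - 1 < _; omega, by show 2 < _; omega, rfl⟩
    · exact ⟨by show _ - 1 < _; omega, by show _ - 2 < _; omega, rfl⟩
    · exact ⟨by show _ - 1 < _; omega, by show e - 2 < _; omega, rfl⟩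
    · exact ⟨by show _ - 1 < _; omega, by show 2 < _; omega, rfl⟩

theorem vc_tri (hB : 3 ≤ B) (hco : ∀ f s, co f s < 2 ^ K) (h2 : ∀ f, co f 2 = 0) (t : ℕ) {s : ℕ}
    (hs : s < B) : vc B K co (B + t) s =
      vc B K co (tri B K co t).1 s + vc B K co (tri B K co t).2.1 s := by
  have hz : vc B K co 2 s = 0 := by rw [vc_base (by omega), if_neg (by omega)]
  rcases t_cases B K t with ⟨f, rfl⟩ | ⟨f, k, e, hk, he, rfl⟩
  · rw [tri_zero, vc_zero, hz]
  · rw [tri_pos hk he, vc_pos hk he]
    by_cases h1 : e = 0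
    · rw [if_pos h1, if_pos h1]
      subst h1
      have e1 : B + (f * Lb B K + (1 + (k * (B + 2) + 0))) - 1 =
        B + (f * Lb B K + k * (B + 2)) := by omega
      rw [e1, vc_edge hco hk.le hs, hz, Nat.add_zero]
    rw [if_neg h1, if_neg h1]
    have e1 : B + (f * Lb B K + (1 + (k * (B + 2) + e))) - 1 =
      B + (f * Lb B K + (1 + (k * (B + 2) + (e - 1)))) := by omega
    by_cases h3 : e = 1
    · rw [if_pos h3]
      subst h3
      have e2 : B + (f * Lb B K + (1 + (k * (B + 2) + 1))) - 2 =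
        B + (f * Lb B K + k * (B + 2)) := by omega
      rw [e1, e2, vc_edge hco hk.le hs, vc_pos hk (by omega), if_pos rfl,
        if_neg (show ¬ (s < 1 - 1) by omega)]
      change _ = co f s / 2 ^ (K - k) + co f s / 2 ^ (K - k)
      ring
    rw [if_neg h3]
    have h10 : ¬ (e - 1 = 0) := by omega
    by_cases h4 : co f (e - 2) / 2 ^ (K - 1 - k) % 2 = 1
    · rw [if_pos h4]
      change _ = vc B K co (B + (f * Lb B K + (1 + (k * (B + 2) + e))) - 1) s +
        vc B K co (e - 2) s
      rw [e1, vc_pos hk (by omega), if_neg h10, vc_base (by omega)]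
      by_cases hse : s = e - 2
      · subst hse
        have hne : e - 2 ≠ 2 := by
          intro h7
          rw [h7, h2] at h4
          simp at h4
        rw [if_neg (show ¬ (e - 2 < e - 1 - 1) by omega),
          if_pos (show e - 2 < e - 1 by omega), h4, if_pos ⟨rfl, hne⟩]
      · have h11 : ¬ (e - 2 = s ∧ e - 2 ≠ 2) := by omega
        by_cases hs1 : s < e - 1
        · rw [if_pos hs1, if_pos (show s < e - 1 - 1 by omega), if_neg h11, Nat.add_zero]
        · rw [if_neg hs1, if_neg (show ¬ (s < e - 1 - 1) by omega), if_neg h11, Nat.add_zero]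
    · rw [if_neg h4]
      change _ = vc B K co (B + (f * Lb B K + (1 + (k * (B + 2) + e))) - 1) s +
        vc B K co 2 s
      rw [e1, vc_pos hk (by omega), if_neg h10, hz, Nat.add_zero]
      by_cases hse : s = e - 2
      · subst hse
        rw [if_pos (show e - 2 < e - 1 by omega), if_neg (show ¬ (e - 2 < e - 1 - 1) by omega)]
        omega
      · by_cases hs1 : s < e - 1
        · rw [if_pos hs1, if_pos (show s < e - 1 - 1 by omega)]
        · rw [if_neg hs1, if_neg (show ¬ (s < e - 1 - 1) by omega)]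

end Pool.Agent.J4.H72.SX
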